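import Pool.Agent.H685R3.KDefs

set_option autoImplicit false

namespace Pool.Agent.Y588.PD

open Pool.Agent.H685R3

/-- The sequence of the moves in `x` of player I (for `β = 0`) or of player II (for `β = 1`). -/
def part (β : ℕ) (x : ℕ → Bool) (n : ℕ) : Bool := x (2 * n + β)

/-- `x` and `y` have the same Turing degree. -/
def SameDegree (x y : ℕ → Bool) : Prop :=
  TuringReducible (charFn x) (charFn y) ∧ TuringReducible (charFn y) (charFn x)

/-- Whether `x` lies in `A` depends only on the Turing degree of the sequence of the moves of
player I and on the Turing degree of the sequence of the moves of player II. -/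
def PairInvariant (A : Set (ℕ → Bool)) : Prop :=
  ∀ x y, SameDegree (part 0 x) (part 0 y) → SameDegree (part 1 x) (part 1 y) → x ∈ A → y ∈ A

/-- The number of the column for the value `v` of the move `k` with priority `c`. -/
def col (k c : ℕ) (v : Bool) : ℕ := Nat.pair (Nat.pair k c) v.toNat

/-- `u` has infinitely many ones in the column `q`. -/
def Often (u : ℕ → Bool) (q : ℕ) : Prop := ∀ N, ∃ s ≥ N, u (Nat.pair q s) = true

/-- The move `k` has the value `v` according to `u`: for the least `c` such that one of the two
columns `col k c false`, `col k c true` of `u` has infinitely many ones, this is so for the column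
`col k c v` only. -/
def Out (u : ℕ → Bool) (k : ℕ) (v : Bool) : Prop :=
  ∃ c, Often u (col k c v) ∧ ¬ Often u (col k c (!v)) ∧ ∀ c' < c, ∀ v', ¬ Often u (col k c' v')

/-- The data of the player who makes the move `k`, where `u` are the data of the player `β` and
`z` those of the other player. -/
def sel (β : ℕ) (u z : ℕ → Bool) (k : ℕ) : ℕ → Bool := if k % 2 = β then u else z

/-- The data `u` of player I and `z` of player II are good for player I: either all moves have
values and the sequence of the values lies in `A`, or some move has no value and the first such
move is a move of player II. -/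
def Good (A : Set (ℕ → Bool)) (u z : ℕ → Bool) : Prop :=
  (∃ y ∈ A, ∀ k, Out (sel 0 u z k) k (y k)) ∨
    ∃ k, k % 2 = 1 ∧ (∀ v, ¬ Out (sel 0 u z k) k v) ∧ ∀ j < k, ∃ v, Out (sel 0 u z j) j v

/-- The coded form of `A`: the moves of player I have the Turing degree of `κ u` for some `u`, and
for all data `u`, `z` such that the moves of player I have the degree of `κ u` and those of
player II have the degree of `κ z`, these data are good for player I. -/
def Coded (κ : (ℕ → Bool) → ℕ → Bool) (A : Set (ℕ → Bool)) : Set (ℕ → Bool) :=
  {x | (∃ u, SameDegree (part 0 x) (κ u)) ∧ ∀ u z, SameDegree (part 0 x) (κ u) →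
    SameDegree (part 1 x) (κ z) → Good A u z}

end Pool.Agent.Y588.PD
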