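import Pool.Agent.Y588.PD.Fwd2

set_option autoImplicit false

namespace Pool.Agent.Y588.PD

open Encodable
open Pool.Agent.Helper227 Pool.Agent.H685R3

/-- `p'` extends `p` without new ones in the columns in `F`. -/
def Fz (F : Finset ℕ) (p p' : List Bool) : Prop :=
  p <+: p' ∧ ∀ n, p.length ≤ n → n < p'.length → n.unpair.1 ∈ F → p'.getD n false = false

theorem Fz.refl (F : Finset ℕ) (p : List Bool) : Fz F p p :=
  ⟨List.prefix_rfl, fun _ h h' _ => by omega⟩

theorem Fz.trans {F : Finset ℕ} {p p' p'' : List Bool} (h : Fz F p p') (h' : Fz F p' p'') :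
    Fz F p p'' := by
  refine ⟨h.1.trans h'.1, fun n h1 h2 h3 => ?_⟩
  rcases Nat.lt_or_ge n p'.length with h4 | h4
  · rw [getD_of_prefix h'.1 h4]
    exact h.2 n h1 h4 h3
  · exact h'.2 n h4 h2 h3

theorem Fz.anti {F F' : Finset ℕ} {p p' : List Bool} (hF : F ⊆ F') (h : Fz F' p p') :
    Fz F p p' :=
  ⟨h.1, fun n h1 h2 h3 => h.2 n h1 h2 (hF h3)⟩

/-- Conditions: a finite sequence and a finite set of frozen columns. -/
abbrev Cond := List Bool × Finset ℕ

/-- The condition `q'` is stronger than `q`. -/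
def Le (q' q : Cond) : Prop := q.2 ⊆ q'.2 ∧ Fz q.2 q.1 q'.1

theorem Le.refl (q : Cond) : Le q q := ⟨Finset.Subset.refl _, Fz.refl _ _⟩

theorem Le.trans {q q' q'' : Cond} (h : Le q'' q') (h' : Le q' q) : Le q'' q :=
  ⟨h'.1.trans h.1, h'.2.trans (h.2.anti h'.1)⟩

theorem Fz.le {F : Finset ℕ} {p p' : List Bool} (h : Fz F p p') : Le (p', F) (p, F) :=
  ⟨Finset.Subset.refl _, h⟩

theorem Le.frozen {p : List Bool} {F F' : Finset ℕ} (h : F ⊆ F') : Le (p, F') (p, F) :=
  ⟨h, Fz.refl _ _⟩

/-- `z` is in accordance with the condition. -/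
def ZE (z : ℕ → Bool) (q : Cond) : Prop :=
  Ini q.1 z ∧ ∀ m, q.1.length ≤ m → m.unpair.1 ∈ q.2 → z m = false

theorem ZE.fz {z : ℕ → Bool} {q : Cond} (h : ZE z q) {t : ℕ} (ht : q.1.length ≤ t) :
    Fz q.2 q.1 (pre z t) := by
  refine ⟨h.1.prefix_pre ht, fun n h1 h2 h3 => ?_⟩
  rw [length_pre] at h2
  rw [pre_getD _ _ _ _ h2]
  exact h.2 n h1 h3

theorem exists_ZE (q : ℕ → Cond) (hq : ∀ n, Le (q (n + 1)) (q n))
    (hl : ∀ n, n ≤ (q n).1.length) : ∃ z, ∀ n, ZE z (q n) := by
  have hmono : ∀ m n, m ≤ n → Le (q n) (q m) := by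
    intro m n hmn
    induction hmn with
    | refl => exact Le.refl _
    | step _ ih => exact (hq _).trans ih
  refine ⟨fun m => (q (m + 1)).1.getD m false, fun n => ⟨fun i hi => ?_, fun m h1 h2 => ?_⟩⟩
  · have h1 := hl (i + 1)
    rcases le_total n (i + 1) with h | h
    · exact getD_of_prefix (hmono _ _ h).2.1 hi
    · exact (getD_of_prefix (hmono _ _ h).2.1 (by omega)).symm
  · have h3 := hl (m + 1)
    have h4 := hl n
    exact (hmono n (m + 1) (by omega)).2.2 m h1 (by omega) h2

theorem meet_list {C : Cond → Prop} (L : List (Cond → Prop))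
    (hL : ∀ D ∈ L, (∀ q q', Le q' q → D q → D q') ∧
      ∀ q, C q → ∃ q', Le q' q ∧ C q' ∧ D q') :
    ∀ q, C q → ∃ q', Le q' q ∧ C q' ∧ ∀ D ∈ L, D q' := by
  induction L with
  | nil => exact fun q hq => ⟨q, Le.refl q, hq, fun D hD => by simp at hD⟩
  | cons D L ih =>
    intro q hq
    obtain ⟨q1, h1, h2, h3⟩ := ih (fun D' hD' => hL D' (List.mem_cons_of_mem _ hD')) q hq
    obtain ⟨q2, h4, h5, h6⟩ := (hL D List.mem_cons_self).2 q1 h2
    refine ⟨q2, h4.trans h1, h5, fun D' hD' => ?_⟩
    rcases List.mem_cons.1 hD' with rfl | h7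
    · exact h6
    · exact (hL D' hD').1 _ _ h4 (h3 D' h7)

theorem exists_generic {C : Cond → Prop} (D : ℕ → Cond → Prop)
    (hD : ∀ n q, C q → ∃ q', Le q' q ∧ C q' ∧ D n q')
    (hlen : ∀ n q, D n q → n + 1 ≤ q.1.length) {q0 : Cond} (h0 : C q0) :
    ∃ z, ZE z q0 ∧ ∀ n, ∃ q, C q ∧ D n q ∧ ZE z q := by
  choose! f hf1 hf2 hf3 using hD
  let q : ℕ → Cond := fun n => Nat.rec q0 (fun n q => f n q) n
  have hq : ∀ n, q (n + 1) = f n (q n) := fun n => rfl
  have hC : ∀ n, C (q n) := by
    intro n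
    induction n with
    | zero => exact h0
    | succ n ih => rw [hq]; exact hf2 n _ ih
  have hl : ∀ n, n ≤ (q n).1.length := by
    intro n
    cases n with
    | zero => omega
    | succ n => rw [hq]; exact hlen n _ (hf3 n _ (hC n))
  obtain ⟨z, hz⟩ := exists_ZE q (fun n => by rw [hq]; exact hf1 n _ (hC n)) hl
  refine ⟨z, hz 0, fun n => ⟨q (n + 1), hC (n + 1), ?_, hz (n + 1)⟩⟩
  rw [hq]
  exact hf3 n _ (hC n)

/-- A new one in a column which is not frozen. -/
theorem exists_vote (F : Finset ℕ) (p : List Bool) (q N : ℕ) (hq : q ∉ F) :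
    ∃ p', Fz F p p' ∧ ∃ m ≥ N, m < p'.length ∧ m.unpair.1 = q ∧ p'.getD m false = true := by
  have h1 : p.length + N ≤ Nat.pair q (p.length + N) := Nat.right_le_pair _ _
  refine ⟨p ++ List.replicate (Nat.pair q (p.length + N) - p.length) false ++ [true],
    ⟨⟨_, (List.append_assoc _ _ _).symm⟩, fun n h2 h3 h4 => ?_⟩,
    Nat.pair q (p.length + N), by omega, by simp; omega, by rw [Nat.unpair_pair], ?_⟩
  · simp only [List.length_append, List.length_replicate, List.length_singleton] at h3
    have h5 : n ≠ Nat.pair q (p.length + N) := by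
      intro h5
      rw [h5, Nat.unpair_pair] at h4
      exact hq h4
    rw [List.getD_append _ _ _ _ (by simp; omega), List.getD_append_right _ _ _ _ h2,
      List.getD_replicate _ (by omega)]
  · rw [List.getD_append_right _ _ _ _ (by simp; omega)]
    have h6 : Nat.pair q (p.length + N) - (p ++ List.replicate (Nat.pair q (p.length + N) -
        p.length) false).length = 0 := by
      simp
      omega
    rw [h6]
    rfl

/-- A longer sequence. -/
theorem exists_longer (F : Finset ℕ) (p : List Bool) (N : ℕ) :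
    ∃ p', Fz F p p' ∧ N ≤ p'.length := by
  refine ⟨p ++ List.replicate N false, ⟨List.prefix_append _ _, fun n h2 h3 _ => ?_⟩, by simp⟩
  simp only [List.length_append, List.length_replicate] at h3
  rw [List.getD_append_right _ _ _ _ h2, List.getD_replicate _ (by omega)]

section

variable (s : List Bool → Bool) (τ : List Bool → List Bool) (β : ℕ)

/-- The play of the strategy `s` against the branch along `z`. -/
def XX (z : ℕ → Bool) : ℕ → Bool :=
  play (fun n => s ((decode (α := List Bool) n).getD [])) (kap τ z) β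

/-- The part of this play chosen by the player `β`. -/
def aa (z : ℕ → Bool) : ℕ → Bool := part β (XX s τ β z)

end

variable {s : List Bool → Bool} {τ : List Bool → List Bool} {β : ℕ}

theorem XX_own (hβ : β < 2) (z : ℕ → Bool) (n : ℕ) :
    XX s τ β z (2 * n + β) = s (hist (XX s τ β z) (2 * n + β)) := by
  rw [XX, play_own hβ]
  simp [hist_eq_pre]

theorem XX_opp (hβ : β < 2) (z : ℕ → Bool) : part (1 - β) (XX s τ β z) = kap τ z :=
  funext fun n => by
    rw [part, XX]
    exact play_other hβ n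

theorem plays_congr {z : ℕ → Bool} {u u' : ℕ → Bool} {m : ℕ} (h : ∀ i < m, u i = u' i) :
    ∀ n ≤ 2 * m, plays z u β n = plays z u' β n := by
  intro n
  induction n with
  | zero => intro _; rfl
  | succ n ih =>
    intro hn
    rw [plays, plays, ih (by omega), bit, bit]
    by_cases h1 : n % 2 = β
    · rw [if_pos h1, if_pos h1]
    · rw [if_neg h1, if_neg h1, h _ (by omega)]

theorem aa_congr (hβ : β < 2) {z z' : ℕ → Bool} {m : ℕ} (h : ∀ i < m, z i = z' i) :
    pre (aa s τ β z) m = pre (aa s τ β z') m := by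
  refine List.map_congr_left fun i hi => ?_
  rw [List.mem_range] at hi
  have h1 : ∀ i < m, kap τ z i = kap τ z' i := fun i hi => kap_congr τ fun j hj => h j (by omega)
  rw [aa, aa, part, part, XX, XX, play, play, plays_congr h1 _ (by omega), bit, bit]
  by_cases h2 : (2 * i + β) % 2 = β
  · rw [if_pos h2, if_pos h2]
  · rw [if_neg h2, if_neg h2, h1 _ (by omega)]

section

variable (E : ℕ → List Bool → ℕ → Bool → Prop) (s : List Bool → Bool)
  (τ : List Bool → List Bool) (β : ℕ)

/-- The string confirmed by the candidate `i` about the data of the player `β`. -/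
noncomputable def dq (i : ℕ) (p : List Bool) : List Bool :=
  dec E τ i (pre (aa s τ β fun n => p.getD n false) p.length)

end

variable {E : ℕ → List Bool → ℕ → Bool → Prop}

theorem dq_of_ini (hβ : β < 2) {p : List Bool} {z : ℕ → Bool} (h : Ini p z) (i : ℕ) :
    dq E s τ β i p = dec E τ i (pre (aa s τ β z) p.length) := by
  rw [dq, aa_congr hβ (z' := z) fun j hj => (h j hj).symm]

theorem dq_pre (hβ : β < 2) (z : ℕ → Bool) (i t : ℕ) :
    dq E s τ β i (pre z t) = dec E τ i (pre (aa s τ β z) t) := by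
  rw [dq_of_ini hβ (ini_pre z t), length_pre]

theorem dq_mono (hE : Fam E) (hτ : Tree E τ) (hβ : β < 2) {p p' : List Bool} (h : p <+: p')
    (i : ℕ) : dq E s τ β i p <+: dq E s τ β i p' := by
  have h1 : Ini p fun n => p'.getD n false := fun j hj => getD_of_prefix h hj
  rw [dq_of_ini hβ h1, dq]
  exact dec_mono hE hτ (pre_prefix _ h.length_le)

end Pool.Agent.Y588.PD
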