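import Pool.Agent.Y588.PD.Kill
import Pool.Agent.Y588.VT.Game

set_option autoImplicit false

namespace Pool.Agent.Y588.PD

open Encodable
open Pool.Agent.Helper227 Pool.Agent.H685R3

variable {E : ℕ → List Bool → ℕ → Bool → Prop} {s : List Bool → Bool}
  {τ : List Bool → List Bool} {β : ℕ} {B : Set (ℕ → Bool)}

theorem BlockH.mono {h h' : List Bool} {hc hc' : ℕ → ℕ} {q q' : Cond} {k : ℕ} {v : Bool}
    (hb : BlockH E s τ β h hc q k v) (hq : Le q' q)
    (hA : ∀ F, Avoid β h' hc' F → Avoid β h hc F) : BlockH E s τ β h' hc' q' k v :=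
  fun q'' h1 h2 i c N => hb q'' (h1.trans hq) (hA _ h2) i c N

theorem getD_snoc_lt {h : List Bool} {b : Bool} {j : ℕ} (hj : j < h.length) :
    (h ++ [b]).getD j false = h.getD j false := List.getD_append _ _ _ _ hj

theorem getD_snoc_eq (h : List Bool) (b : Bool) : (h ++ [b]).getD h.length false = b := by
  simp [List.getD]

theorem avoid_init {h : List Bool} {b : Bool} {hc hc' : ℕ → ℕ}
    (hh : ∀ j < h.length, hc' j = hc j) {F : Finset ℕ} (hA : Avoid β (h ++ [b]) hc' F) :
    Avoid β h hc F := by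
  intro j hj hjβ
  have h1 := hA j (by simp; omega) hjβ
  rwa [getD_snoc_lt hj, hh j hj] at h1

/-- The condition excludes all witnesses with index below `n` of the values opposed to the
history. -/
def Kills (E : ℕ → List Bool → ℕ → Bool → Prop) (s : List Bool → Bool)
    (τ : List Bool → List Bool) (β : ℕ) (h : List Bool) (n : ℕ) (q : Cond) : Prop :=
  ∀ k < h.length, k % 2 = β → ∀ ι < n, Kill E s τ β q k (!(h.getD k false)) ι.unpair.1
    ι.unpair.2.unpair.1 ι.unpair.2.unpair.2

theorem exists_progress (hE : Nice E) (hτ : Tree E τ) (hβ : β < 2) {h : List Bool}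
    {hc : ℕ → ℕ} {q : Cond} (hA : Avoid β h hc q.2)
    (hB : ∀ k < h.length, k % 2 = β → BlockH E s τ β h hc q k (!(h.getD k false))) (n : ℕ) :
    ∃ q', Le q' q ∧ q'.2 = q.2 ∧ n ≤ q'.1.length ∧ Vot β h hc n q'.1 ∧
      Kills E s τ β h n q' := by
  have key : ∀ K : ℕ, ∃ q', Le q' q ∧ q'.2 = q.2 ∧ ∀ e : ℕ, e < K → e.unpair.1 < h.length →
      e.unpair.1 % 2 = β → Kill E s τ β q' e.unpair.1 (!(h.getD e.unpair.1 false))
        e.unpair.2.unpair.1 e.unpair.2.unpair.2.unpair.1 e.unpair.2.unpair.2.unpair.2 := by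
    intro K
    induction K with
    | zero => exact ⟨q, Le.refl q, rfl, fun e he => by omega⟩
    | succ K ih =>
      obtain ⟨q1, h1, h2, h3⟩ := ih
      by_cases hK : K.unpair.1 < h.length ∧ K.unpair.1 % 2 = β
      · obtain ⟨p, h4, h5⟩ := hB _ hK.1 hK.2 q1 h1 (by rw [h2]; exact hA) K.unpair.2.unpair.1
          K.unpair.2.unpair.2.unpair.1 K.unpair.2.unpair.2.unpair.2
        refine ⟨(p, q1.2), h4.le.trans h1, h2, fun e he h6 h7 => ?_⟩
        rcases Nat.lt_succ_iff_lt_or_eq.1 he with h8 | h8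
        · exact (h3 e h8 h6 h7).mono hE.fam hτ hβ h4.le
        · rw [h8]
          exact h5
      · refine ⟨q1, h1, h2, fun e he h6 h7 => ?_⟩
        rcases Nat.lt_succ_iff_lt_or_eq.1 he with h8 | h8
        · exact h3 e h8 h6 h7
        · rw [h8] at h6 h7
          exact absurd ⟨h6, h7⟩ hK
  obtain ⟨q1, h1, h2, h3⟩ := key (Nat.pair h.length n)
  obtain ⟨p2, h4, h5⟩ := exists_vot (β := β) (h := h) (hc := hc) (F := q1.2)
    (by rw [h2]; exact hA) n q1.1
  obtain ⟨p3, h6, h7⟩ := exists_longer q1.2 p2 n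
  refine ⟨(p3, q1.2), (h4.trans h6).le.trans h1, h2, h7, h5.mono h6.1, fun k hk hkβ ι hι => ?_⟩
  have h8 : Nat.pair k ι < Nat.pair h.length n :=
    (Nat.pair_lt_pair_left ι hk).trans (Nat.pair_lt_pair_right h.length hι)
  have h9 := h3 (Nat.pair k ι) h8
  simp only [Nat.unpair_pair] at h9
  exact (h9 hk hkβ).mono hE.fam hτ hβ (h4.trans h6).le

/-- The invariant of the derived strategy. -/
def PP (E : ℕ → List Bool → ℕ → Bool → Prop) (s : List Bool → Bool)
    (τ : List Bool → List Bool) (β : ℕ) (h : List Bool) (S : Cond × (ℕ → ℕ)) : Prop :=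
  Froz β h S.2 S.1.2 ∧ Avoid β h S.2 S.1.2 ∧
    ∀ k < h.length, k % 2 = β → BlockH E s τ β h S.2 S.1 k (!(h.getD k false))

/-- The progress of the derived strategy. -/
def RR (E : ℕ → List Bool → ℕ → Bool → Prop) (s : List Bool → Bool)
    (τ : List Bool → List Bool) (β : ℕ) (h : List Bool) (S S' : Cond × (ℕ → ℕ)) : Prop :=
  Le S'.1 S.1 ∧ (∀ j < h.length, S'.2 j = S.2 j) ∧ h.length + 1 ≤ S'.1.1.length ∧
    Vot β h S.2 (h.length + 1) S'.1.1 ∧ Kills E s τ β h (h.length + 1) S'.1

theorem own_step (hE : Nice E) (hτ : Tree E τ) (hβ : β < 2)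
    (hs : ∀ x : ℕ → Bool, (∀ n, x (2 * n + β) = s (hist x (2 * n + β))) →
      (∃ z, REq E (part (1 - β) x) (kap τ z)) → x ∈ Sb E τ β B)
    (h : List Bool) (S : Cond × (ℕ → ℕ)) (hk : h.length % 2 = β) (hP : PP E s τ β h S) :
    ∃ b S', PP E s τ β (h ++ [b]) S' ∧ RR E s τ β h S S' := by
  obtain ⟨q, hc⟩ := S
  obtain ⟨hF, hA, hB⟩ := hP
  simp only at hF hA hB
  obtain ⟨v, q1, h1, h2, h3⟩ := exists_block hE hτ hβ hs hF hA hk
  obtain ⟨q2, h4, h5, h6, h7, h8⟩ := exists_progress (s := s) hE hτ hβ h2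
    (fun k hk hkβ => (hB k hk hkβ).mono h1 fun _ h => h) (h.length + 1)
  refine ⟨v, (q2, hc), ⟨fun j hj hjβ => ?_, fun j hj hjβ => ?_, fun k hk' hkβ => ?_⟩,
    h4.trans h1, fun _ _ => rfl, h6, h7, h8⟩
  · simp only [List.length_append, List.length_singleton] at hj
    have h9 : j ≠ h.length := fun h9 => hjβ (by rw [h9]; exact hk)
    rw [getD_snoc_lt (show j < h.length by omega)]
    obtain ⟨h10, h11⟩ := hF j (by omega) hjβ
    exact ⟨(h4.trans h1).1 h10, fun c' hc' v' => (h4.trans h1).1 (h11 c' hc' v')⟩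
  · simp only [List.length_append, List.length_singleton] at hj
    have h9 : j ≠ h.length := fun h9 => hjβ (by rw [h9]; exact hk)
    rw [getD_snoc_lt (show j < h.length by omega)]
    simp only
    rw [h5]
    exact h2 j (by omega) hjβ
  · simp only [List.length_append, List.length_singleton] at hk'
    rcases Nat.lt_succ_iff_lt_or_eq.1 hk' with h9 | h9
    · rw [getD_snoc_lt h9]
      exact (hB k h9 hkβ).mono (h4.trans h1) fun F hF => avoid_init (fun _ _ => rfl) hF
    · rw [h9, getD_snoc_eq]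
      exact h3.mono h4 fun F hF => avoid_init (fun _ _ => rfl) hF

theorem opp_step (hE : Nice E) (hτ : Tree E τ) (hβ : β < 2)
    (h : List Bool) (S : Cond × (ℕ → ℕ)) (hk : h.length % 2 ≠ β) (hP : PP E s τ β h S)
    (b : Bool) : ∃ S', PP E s τ β (h ++ [b]) S' ∧ RR E s τ β h S S' := by
  classical
  obtain ⟨q, hc⟩ := S
  obtain ⟨hF, hA, hB⟩ := hP
  simp only at hF hA hB
  obtain ⟨c, hcq⟩ : ∃ c, col h.length c b ∉ q.2 := by
    refine ⟨q.2.sup id + 1, fun h1 => ?_⟩
    have h2 : col h.length (q.2.sup id + 1) b ≤ q.2.sup id := Finset.le_sup (f := id) h1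
    have h3 := Nat.right_le_pair h.length (q.2.sup id + 1)
    have h4 := Nat.left_le_pair (Nat.pair h.length (q.2.sup id + 1)) b.toNat
    rw [col] at h2
    omega
  let G : Finset ℕ := (Finset.range c ×ˢ (Finset.univ : Finset Bool)).image
    fun p => col h.length p.1 p.2
  have hG : ∀ r, r ∈ G ↔ ∃ c' < c, ∃ v', r = col h.length c' v' := by
    intro r
    simp only [G, Finset.mem_image, Finset.mem_product, Finset.mem_range, Finset.mem_univ,
      and_true, Prod.exists]
    constructor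
    · rintro ⟨c', v', h1, rfl⟩
      exact ⟨c', h1, v', rfl⟩
    · rintro ⟨c', h1, v', rfl⟩
      exact ⟨c', v', h1, rfl⟩
  let F' : Finset ℕ := insert (col h.length c (!b)) (q.2 ∪ G)
  have hF' : ∀ r, r ∈ F' ↔ r = col h.length c (!b) ∨ r ∈ q.2 ∨
      ∃ c' < c, ∃ v', r = col h.length c' v' := by
    intro r
    simp only [F', Finset.mem_insert, Finset.mem_union, hG]
  have hsub : q.2 ⊆ F' := fun r hr => (hF' r).2 (Or.inr (Or.inl hr))
  have hhc : ∀ j < h.length, Function.update hc h.length c j = hc j := fun j hj => by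
    rw [Function.update_of_ne (by omega)]
  have hA' : Avoid β (h ++ [b]) (Function.update hc h.length c) F' := by
    intro j hj hjβ hmem
    simp only [List.length_append, List.length_singleton] at hj
    rw [hF'] at hmem
    rcases Nat.lt_succ_iff_lt_or_eq.1 hj with h9 | h9
    · rw [getD_snoc_lt h9, hhc j h9] at hmem
      rcases hmem with h1 | h1 | ⟨c', _, v', h1⟩
      · have := (col_inj h1).1
        omega
      · exact hA j h9 hjβ h1
      · have := (col_inj h1).1
        omega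
    · subst h9
      rw [getD_snoc_eq, Function.update_self] at hmem
      rcases hmem with h1 | h1 | ⟨c', h2, v', h1⟩
      · have := (col_inj h1).2.2
        revert this
        cases b <;> simp
      · exact hcq h1
      · have := (col_inj h1).2.1
        omega
  have hLe : Le (q.1, F') q := Le.frozen hsub
  obtain ⟨q2, h4, h5, h6, h7, h8⟩ := exists_progress (s := s) (q := (q.1, F')) hE hτ hβ
    (avoid_init hhc hA') (fun k hk hkβ => (hB k hk hkβ).mono hLe fun _ h => h) (h.length + 1)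
  refine ⟨(q2, Function.update hc h.length c), ⟨fun j hj hjβ => ?_, ?_, fun k hk' hkβ => ?_⟩,
    h4.trans hLe, hhc, h6, h7, h8⟩
  · simp only [List.length_append, List.length_singleton] at hj
    simp only
    rw [h5]
    rcases Nat.lt_succ_iff_lt_or_eq.1 hj with h9 | h9
    · rw [getD_snoc_lt h9, hhc j h9]
      obtain ⟨h10, h11⟩ := hF j h9 hjβ
      exact ⟨hsub h10, fun c' hc' v' => hsub (h11 c' hc' v')⟩
    · subst h9
      rw [getD_snoc_eq, Function.update_self]
      exact ⟨(hF' _).2 (Or.inl rfl), fun c' hc' v' => (hF' _).2 (Or.inr (Or.inr ⟨c', hc', v', rfl⟩))⟩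
  · simp only
    rw [h5]
    exact hA'
  · simp only [List.length_append, List.length_singleton] at hk'
    rcases Nat.lt_succ_iff_lt_or_eq.1 hk' with h9 | h9
    · rw [getD_snoc_lt h9]
      exact (hB k h9 hkβ).mono (h4.trans hLe) fun F hF => avoid_init hhc hF
    · rw [h9] at hkβ
      exact absurd hkβ hk

/-- The second half of the theorem. -/
theorem wins_of_Sb (hE : Nice E) (hτ : Tree E τ) (hβ : β < 2)
    (hW : ∃ s : List Bool → Bool, ∀ x : ℕ → Bool,
      (∀ n, x (2 * n + β) = s (hist x (2 * n + β))) →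
      (∃ z, REq E (part (1 - β) x) (kap τ z)) → x ∈ Sb E τ β B) : Wins β B := by
  obtain ⟨s, hs⟩ := hW
  refine VT.wins_of_memory (S := Cond × (ℕ → ℕ)) (PP E s τ β) (RR E s τ β)
    (([], ∅), fun _ => 0) ⟨fun j hj => absurd hj (by simp), fun j hj => absurd hj (by simp),
      fun j hj => absurd hj (by simp)⟩ (own_step hE hτ hβ hs) (opp_step hE hτ hβ) ?_
  intro y S hP hR
  obtain ⟨z, hz⟩ := exists_ZE (fun n => (S n).1) (fun n => (hR n).1) (fun n => by
    cases n with
    | zero => omega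
    | succ n =>
      have := (hR n).2.2.1
      rw [length_pre] at this
      exact this)
  have hstab : ∀ j n, j + 1 ≤ n → (S n).2 j = (S (j + 1)).2 j := by
    intro j n hn
    induction n, hn using Nat.le_induction with
    | base => rfl
    | succ n hn ih =>
      rw [← ih]
      exact (hR n).2.1 j (by rw [length_pre]; omega)
  have hopp : ∀ j, j % 2 ≠ β → Out z j (y j) := by
    intro j hjβ
    have h1 : (pre y (j + 1)).getD j false = y j := pre_getD _ _ _ _ (by omega)
    have h2 := out_opp (j := j) (hz (j + 1)) (hP (j + 1)).1 (by simp) hjβ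
    rw [h1] at h2
    refine h2 fun N => ?_
    obtain ⟨n, hn1, hn2⟩ : ∃ n, j + 1 ≤ n ∧ Nat.pair (col j ((S (j + 1)).2 j) (y j)) N ≤ n :=
      ⟨_, le_max_left _ _, le_max_right _ _⟩
    obtain ⟨m, h3, h4, h5, h6⟩ := (hR n).2.2.2.1 j (by rw [length_pre]; omega) hjβ
    rw [pre_getD _ _ _ _ (by omega), hstab j n hn1] at h5
    rw [length_pre] at h3
    refine ⟨m.unpair.2, le_unpair_of_le (by omega) h5, ?_⟩
    have h7 : Nat.pair (col j ((S (j + 1)).2 j) (y j)) m.unpair.2 = m := by
      rw [← h5, Nat.pair_unpair]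
    rw [h7, (hz (n + 1)).1 m h4]
    exact h6
  have hown : ∀ k, k % 2 = β → ∀ u, REq E (aa s τ β z) (kap τ u) → ¬ Out u k (!(y k)) := by
    intro k hkβ u hu ho
    obtain ⟨i, c, N, h3⟩ := exists_QQ hE.fam hτ hu ho
    obtain ⟨n, hn1, hn2⟩ : ∃ n, k + 1 ≤ n ∧ Nat.pair i (Nat.pair c N) + 1 ≤ n :=
      ⟨_, le_max_left _ _, le_max_right _ _⟩
    have h4 := (hR n).2.2.2.2 k (by rw [length_pre]; omega) hkβ (Nat.pair i (Nat.pair c N))
      (by rw [length_pre]; omega)
    rw [pre_getD _ _ _ _ (by omega)] at h4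
    simp only [Nat.unpair_pair] at h4
    exact h4.not_QQ hE.fam hτ hβ (hz (n + 1)) h3
  obtain ⟨u, hu, hg⟩ := exists_good hβ hs hE z
  rcases hg with ⟨y', hy', h1⟩ | ⟨k, hk, h1, _⟩
  · have h2 : y' = y := by
      funext k
      have h3 := h1 k
      by_cases hk : k % 2 = β
      · rw [sel, if_pos hk] at h3
        by_contra h4
        have h5 : y' k = !(y k) := by
          revert h4
          cases y' k <;> cases y k <;> simp
        rw [h5] at h3
        exact hown k hk u hu h3
      · rw [sel, if_neg hk] at h3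
        exact h3.unique (hopp k hk)
    rwa [← h2]
  · rw [sel, if_neg hk] at h1
    exact absurd (hopp k hk) (h1 _)

end Pool.Agent.Y588.PD
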