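import Pool.Agent.Y588.PD.Tree

set_option autoImplicit false

namespace Pool.Agent.Y588.PD

open Pool.Agent.Helper227 Pool.Agent.H685R3

variable (E : ℕ → List Bool → ℕ → Bool → Prop) (τ : List Bool → List Bool)

/-- The string `s` is confirmed by the candidate `i` at `σ`. -/
def Conf (i : ℕ) (σ s : List Bool) : Prop :=
  ∃ t, s <+: t ∧ t.length ≤ σ.length ∧
    (∀ n < (τ t).length, E i.unpair.1 σ n ((τ t).getD n false)) ∧
    ∀ n < s.length, E i.unpair.2 (τ t) n (σ.getD n false)

/-- The length of the longest confirmed string. -/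
noncomputable def dl (i : ℕ) (σ : List Bool) : ℕ :=
  open Classical in Nat.findGreatest (fun m => ∃ s, s.length = m ∧ Conf E τ i σ s) σ.length

open Classical in
/-- The longest confirmed string. -/
noncomputable def dec (i : ℕ) (σ : List Bool) : List Bool :=
  if h : ∃ s, s.length = dl E τ i σ ∧ Conf E τ i σ s then h.choose else []

variable {E τ}

theorem Conf.length_le {i : ℕ} {σ s : List Bool} (h : Conf E τ i σ s) : s.length ≤ σ.length := by
  obtain ⟨t, h1, h2, _⟩ := h
  exact h1.length_le.trans h2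

theorem Conf.mono (hE : Fam E) {i : ℕ} {σ σ' s : List Bool} (h : Conf E τ i σ s)
    (hσ : σ <+: σ') : Conf E τ i σ' s := by
  have hl := h.length_le
  obtain ⟨t, h1, h2, h3, h4⟩ := h
  refine ⟨t, h1, h2.trans hσ.length_le, fun n hn => hE.mono _ _ _ _ _ hσ (h3 n hn),
    fun n hn => ?_⟩
  rw [getD_of_prefix hσ (by omega)]
  exact h4 n hn

theorem prefix_of_agree {σ ρ : List Bool}
    (h : ∀ n, n < σ.length → n < ρ.length → σ.getD n false = ρ.getD n false)
    (hl : σ.length ≤ ρ.length) : σ <+: ρ := by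
  rw [List.prefix_iff_eq_take]
  refine List.ext_getElem (by simp [hl]) fun i h1 h2 => ?_
  have h3 := h i h1 (by omega)
  rw [List.getD_eq_getElem _ _ h1, List.getD_eq_getElem _ _ (by omega)] at h3
  rw [h3, List.getElem_take]

theorem comp_of_prefix {s s' t t' : List Bool} (h : s <+: t) (h' : s' <+: t')
    (ht : t <+: t' ∨ t' <+: t) : s <+: s' ∨ s' <+: s := by
  rcases ht with ht | ht
  · exact List.prefix_or_prefix_of_prefix (h.trans ht) h'
  · exact List.prefix_or_prefix_of_prefix h (h'.trans ht)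

theorem Conf.comp (hE : Fam E) (hτ : Tree E τ) {i : ℕ} {σ s s' : List Bool}
    (h : Conf E τ i σ s) (h' : Conf E τ i σ s') : s <+: s' ∨ s' <+: s := by
  obtain ⟨t, h1, _, h3, _⟩ := h
  obtain ⟨t', h1', _, h3', _⟩ := h'
  have h5 : ∀ n, n < (τ t).length → n < (τ t').length →
      (τ t).getD n false = (τ t').getD n false := fun n hn hn' =>
    hE.single _ _ _ _ _ (h3 n hn) (h3' n hn')
  refine comp_of_prefix h1 h1' ?_
  rcases le_total (τ t).length (τ t').length with h6 | h6
  · exact hτ.comp (prefix_of_agree h5 h6) List.prefix_rfl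
  · exact hτ.comp List.prefix_rfl (prefix_of_agree (fun n hn hn' => (h5 n hn' hn).symm) h6)

theorem le_dl {i : ℕ} {σ s : List Bool} (h : Conf E τ i σ s) : s.length ≤ dl E τ i σ := by
  classical
  exact Nat.le_findGreatest (P := fun m => ∃ s, s.length = m ∧ Conf E τ i σ s) h.length_le
    ⟨s, rfl, h⟩

theorem dec_of_conf {i : ℕ} {σ s : List Bool} (h : Conf E τ i σ s) :
    Conf E τ i σ (dec E τ i σ) ∧ s.length ≤ (dec E τ i σ).length := by
  classical
  have h1 : ∃ s, s.length = dl E τ i σ ∧ Conf E τ i σ s :=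
    Nat.findGreatest_spec (P := fun m => ∃ s, s.length = m ∧ Conf E τ i σ s) h.length_le
      ⟨s, rfl, h⟩
  have h2 : dec E τ i σ = h1.choose := by rw [dec, dif_pos h1]
  rw [h2, h1.choose_spec.1]
  exact ⟨h1.choose_spec.2, le_dl h⟩

theorem conf_dec {i : ℕ} {σ : List Bool} (h : 0 < (dec E τ i σ).length) :
    Conf E τ i σ (dec E τ i σ) := by
  classical
  by_cases h1 : ∃ s, s.length = dl E τ i σ ∧ Conf E τ i σ s
  · obtain ⟨s, _, hs⟩ := h1
    exact (dec_of_conf hs).1
  · rw [dec, dif_neg h1] at h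
    simp at h

theorem length_dec_le (i : ℕ) (σ : List Bool) : (dec E τ i σ).length ≤ σ.length := by
  rcases Nat.eq_zero_or_pos (dec E τ i σ).length with h | h
  · omega
  · exact (conf_dec h).length_le

theorem dec_mono (hE : Fam E) (hτ : Tree E τ) {i : ℕ} {σ σ' : List Bool} (hσ : σ <+: σ') :
    dec E τ i σ <+: dec E τ i σ' := by
  rcases Nat.eq_zero_or_pos (dec E τ i σ).length with h | h
  · rw [List.length_eq_zero_iff.1 h]
    exact List.nil_prefix
  · have h1 := (conf_dec h).mono hE hσ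
    obtain ⟨h2, h3⟩ := dec_of_conf h1
    rcases h1.comp hE hτ h2 with h4 | h4
    · exact h4
    · rw [h4.eq_of_length (le_antisymm h4.length_le h3)]

/-- Equivalence: mutual reducibility. -/
def REq (E : ℕ → List Bool → ℕ → Bool → Prop) (x y : ℕ → Bool) : Prop :=
  RLe E x y ∧ RLe E y x

theorem exists_conf (hE : Fam E) (hτ : Tree E τ) {b z : ℕ → Bool} {e e' : ℕ}
    (h : ∀ n, ∃ k, E e (pre b k) n (kap τ z n)) (h' : ∀ n, ∃ k, E e' (pre (kap τ z) k) n (b n))
    (m : ℕ) : ∃ t, ∀ t' ≥ t, Conf E τ (Nat.pair e e') (pre b t') (pre z m) := by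
  choose f hf using h
  choose g hg using h'
  have h1 : ∃ M, m ≤ M ∧ ∀ n < m, g n ≤ M :=
    ⟨m + (Finset.range m).sup g, by omega, fun n hn =>
      (Finset.le_sup (f := g) (Finset.mem_range.2 hn)).trans (by omega)⟩
  obtain ⟨M, hM, hgM⟩ := h1
  have h2 : ∃ t, M ≤ t ∧ ∀ n < (τ (pre z M)).length, f n ≤ t :=
    ⟨M + (Finset.range (τ (pre z M)).length).sup f, by omega, fun n hn =>
      (Finset.le_sup (f := f) (Finset.mem_range.2 hn)).trans (by omega)⟩
  obtain ⟨t, ht, hft⟩ := h2
  refine ⟨t, fun t' ht' => ⟨pre z M, pre_prefix z hM, by simp; omega, fun n hn => ?_,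
    fun n hn => ?_⟩⟩
  · rw [Nat.unpair_pair, ← hτ.ini_kap z M n hn]
    exact hE.mono _ _ _ _ _ (pre_prefix b ((hft n hn).trans ht')) (hf n)
  · rw [length_pre] at hn
    rw [Nat.unpair_pair, pre_getD _ _ _ _ (by omega)]
    refine hE.mono _ _ _ _ _ ?_ (hg n)
    have h3 := hτ.len (pre z M)
    rw [length_pre] at h3
    rw [← (hτ.ini_kap z M).pre_eq]
    exact pre_prefix _ ((hgM n hn).trans h3)

theorem exists_candidate (hE : Fam E) (hτ : Tree E τ) {b z : ℕ → Bool}
    (h : REq E b (kap τ z)) : ∃ i, (∀ m, ∃ t, m ≤ (dec E τ i (pre b t)).length) ∧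
      ∀ t, Ini (dec E τ i (pre b t)) z := by
  obtain ⟨⟨e', he'⟩, e, he⟩ := h
  refine ⟨Nat.pair e e', fun m => ?_, fun t => ?_⟩
  · obtain ⟨t, ht⟩ := exists_conf hE hτ he he' m
    have := (dec_of_conf (ht t le_rfl)).2
    rw [length_pre] at this
    exact ⟨t, this⟩
  · rcases Nat.eq_zero_or_pos (dec E τ (Nat.pair e e') (pre b t)).length with h1 | h1
    · intro i hi
      omega
    · obtain ⟨t', ht'⟩ := exists_conf hE hτ he he' (dec E τ (Nat.pair e e') (pre b t)).length
      have h2 := (conf_dec h1).mono hE (pre_prefix b (le_max_left t t'))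
      have h3 := ht' (max t t') (le_max_right _ _)
      have h4 : dec E τ (Nat.pair e e') (pre b t) =
          pre z (dec E τ (Nat.pair e e') (pre b t)).length := by
        rcases h2.comp hE hτ h3 with h5 | h5
        · exact h5.eq_of_length (by simp)
        · exact (h5.eq_of_length (by simp)).symm
      rw [h4]
      exact ini_pre z _

theorem exists_of_candidate (hE : Fam E) (hτ : Tree E τ) {b : ℕ → Bool} {i : ℕ}
    (h : ∀ m, ∃ t, m ≤ (dec E τ i (pre b t)).length) :
    ∃ z, (∀ t, Ini (dec E τ i (pre b t)) z) ∧ REq E b (kap τ z) := by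
  choose T hT using h
  have hz : ∀ t n, n < (dec E τ i (pre b t)).length →
      (dec E τ i (pre b (T (n + 1)))).getD n false = (dec E τ i (pre b t)).getD n false := by
    intro t n hn
    have h1 := hT (n + 1)
    rcases le_total t (T (n + 1)) with h2 | h2
    · exact getD_of_prefix (dec_mono hE hτ (pre_prefix b h2)) hn
    · exact (getD_of_prefix (dec_mono hE hτ (pre_prefix b h2)) (by omega)).symm
  refine ⟨fun n => (dec E τ i (pre b (T (n + 1)))).getD n false, fun t n hn => hz t n hn, ?_⟩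
  generalize hzz : (fun n => (dec E τ i (pre b (T (n + 1)))).getD n false) = z
  have hini : ∀ t, Ini (dec E τ i (pre b t)) z := fun t n hn => by
    rw [← hzz]
    exact hz t n hn
  have key : ∀ n, ∃ k, E i.unpair.1 (pre b k) n (kap τ z n) := by
    intro n
    have h1 := hT (n + 1)
    obtain ⟨t, h2, h3, h4, h5⟩ := conf_dec (E := E) (τ := τ) (i := i)
      (σ := pre b (T (n + 1))) (by omega)
    have h6 : (dec E τ i (pre b (T (n + 1)))).length ≤
        (τ (dec E τ i (pre b (T (n + 1))))).length := hτ.len _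
    have h7 := hτ.mono h2
    refine ⟨T (n + 1), ?_⟩
    have h8 := h4 n (by have := h7.length_le; omega)
    rw [getD_of_prefix h7 (by omega)] at h8
    have h9 := (hini (T (n + 1))).pre_eq
    have h10 := hτ.ini_kap z (dec E τ i (pre b (T (n + 1)))).length
    rw [h9] at h10
    rw [h10 n (by omega)]
    exact h8
  refine ⟨⟨i.unpair.2, fun n => ?_⟩, i.unpair.1, key⟩
  have h1 := hT (n + 1)
  obtain ⟨t, h2, h3, h4, h5⟩ := conf_dec (E := E) (τ := τ) (i := i)
    (σ := pre b (T (n + 1))) (by omega)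
  have h6 : Ini (τ t) (kap τ z) := by
    intro m hm
    obtain ⟨k, hk⟩ := key m
    exact hE.single _ _ _ _ _ (hE.mono _ _ _ _ _ (pre_prefix b (le_max_left k (T (n + 1)))) hk)
      (hE.mono _ _ _ _ _ (pre_prefix b (le_max_right k (T (n + 1)))) (h4 m hm))
  have h7 := h5 n (by omega)
  have h8 := length_dec_le (E := E) (τ := τ) i (pre b (T (n + 1)))
  rw [length_pre] at h8
  rw [pre_getD _ _ _ _ (by omega)] at h7
  refine ⟨(τ t).length, ?_⟩
  rw [h6.pre_eq]
  exact h7

end Pool.Agent.Y588.PD
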