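import Pool.Agent.H685R3.HMain

set_option autoImplicit false

namespace Pool.Agent.Y588.PD

open Encodable
open Nat.Partrec (Code)
open Pool.Agent.Helper227 Pool.Agent.H685R3

/-- A family of partial functionals, given by their axioms. -/
structure Fam (E : ℕ → List Bool → ℕ → Bool → Prop) : Prop where
  mono : ∀ e σ τ n c, σ <+: τ → E e σ n c → E e τ n c
  single : ∀ e σ n c c', E e σ n c → E e σ n c' → c = c'

/-- Some functional in the family maps `y` to `x`. -/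
def RLe (E : ℕ → List Bool → ℕ → Bool → Prop) (x y : ℕ → Bool) : Prop :=
  ∃ e, ∀ n, ∃ k, E e (pre y k) n (x n)

theorem pre_ext (h : List Bool) : pre (fun n => h.getD n false) h.length = h := by
  refine List.ext_getElem (by simp) fun i h1 h2 => ?_
  rw [getElem_pre]
  simp [List.getD, h2]

theorem exists_dom {F : ℕ → Prop} (hF : S1 F) : ∃ c : Code, ∀ m, (c.eval m).Dom ↔ F m := by
  obtain ⟨c, hc⟩ := Nat.Partrec.Code.exists_code.1 hF.re
  refine ⟨c, fun m => ?_⟩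
  rw [hc]
  simp [Part.assert]

theorem exists_fam : ∃ E, Fam E ∧ ∀ x y, TLe x y ↔ RLe E x y := by
  let R : ℕ → List Bool → ℕ → Bool → Prop := fun c σ n b =>
    ((Denumerable.ofNat Code c).eval (encode (σ, (n, b)))).Dom
  let nice : ℕ → Prop := fun c => (∀ σ τ n b, σ <+: τ → R c σ n b → R c τ n b) ∧
    ∀ σ n b b', R c σ n b → R c σ n b' → b = b'
  refine ⟨fun e σ n b => nice e ∧ R e σ n b, ⟨fun e σ τ n c h h' => ⟨h'.1, h'.1.1 σ τ n c h h'.2⟩,
    fun e σ n c c' h h' => h.1.2 σ n c c' h.2 h'.2⟩, fun x y => ⟨fun h => ?_, ?_⟩⟩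
  · obtain ⟨E0, hE0, mE0, eE0⟩ := tLe_iff_SI.1 h
    obtain ⟨G, ⟨E1, hE1, mE1, eE1⟩, hG1, hG2, hG3⟩ := US.choose (α := ℕ) (β := Bool)
      (P := fun B n c => ∃ s, E0 (pre B s, (n, c))) ⟨E0, hE0, mE0, fun B a => Iff.rfl⟩
    have hF2 : S1 fun m : ℕ => ∃ a : List Bool × (ℕ × Bool), m = encode a ∧ E1 a := by
      refine S1.ex (S1.and (S1.of_prim ?_) (hE1.comp Primrec.snd))
      exact Primrec.eq.comp Primrec.fst (Primrec.encode.comp Primrec.snd)
    obtain ⟨c, hc⟩ := exists_dom hF2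
    have hR : ∀ σ n b, R (encode c) σ n b ↔ E1 (σ, (n, b)) := by
      intro σ n b
      simp only [R, Denumerable.ofNat_encode]
      rw [hc]
      constructor
      · rintro ⟨a, h1, h2⟩
        rw [encode_injective h1]
        exact h2
      · intro h1
        exact ⟨_, rfl, h1⟩
    have hG : ∀ B n b, G B n b ↔ ∃ s, E1 (pre B s, (n, b)) := fun B n b => eE1 B (n, b)
    refine ⟨encode c, fun n => ?_⟩
    have hnice : nice (encode c) := by
      refine ⟨fun σ τ n b h1 h2 => ?_, fun σ n b b' h1 h2 => ?_⟩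
      · rw [hR] at h2 ⊢
        exact mE1 _ _ _ h1 h2
      · rw [hR] at h1 h2
        have h3 := pre_ext σ
        refine hG2 (fun n => σ.getD n false) n b b' ((hG _ _ _).2 ⟨σ.length, ?_⟩)
          ((hG _ _ _).2 ⟨σ.length, ?_⟩)
        · rw [h3]; exact h1
        · rw [h3]; exact h2
    obtain ⟨b, hb⟩ := hG3 y n ⟨x n, (eE0 (n, x n)).1 rfl⟩
    have h1 : x n = b := (eE0 (n, b)).2 (hG1 _ _ _ hb)
    obtain ⟨s, hs⟩ := (hG _ _ _).1 hb
    rw [h1]
    exact ⟨s, hnice, (hR _ _ _).2 hs⟩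
  · rintro ⟨c, hc⟩
    obtain ⟨_, hn, _⟩ := hc 0
    refine tLe_iff_SI.2 ⟨fun q => R c q.1 q.2.1 q.2.2, ?_, fun σ τ a h1 h2 => hn.1 _ _ _ _ h1 h2,
      fun p => ⟨fun h => ?_, ?_⟩⟩
    · refine s1_eval.comp (f := fun q : List Bool × (ℕ × Bool) =>
        (Denumerable.ofNat Code c, encode (q.1, (q.2.1, q.2.2)))) ?_
      exact (Primrec.const _).pair (Primrec.encode.comp (Primrec.fst.pair
        ((Primrec.fst.comp Primrec.snd).pair (Primrec.snd.comp Primrec.snd))))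
    · obtain ⟨k, _, hk⟩ := hc p.1
      rw [h] at hk
      exact ⟨k, hk⟩
    · rintro ⟨s, hs⟩
      obtain ⟨k, _, hk⟩ := hc p.1
      exact hn.2 _ _ _ _ (hn.1 _ _ _ _ (pre_prefix y (le_max_right s k)) hk)
        (hn.1 _ _ _ _ (pre_prefix y (le_max_left s k)) hs)

end Pool.Agent.Y588.PD
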