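import Pool.Agent.Y588.PD.Out

set_option autoImplicit false

namespace Pool.Agent.Y588.PD

open Pool.Agent.Helper227 Pool.Agent.H685R3

section

variable (E : ℕ → List Bool → ℕ → Bool → Prop) (τ : List Bool → List Bool)
  (g : List Bool → Bool) (β : ℕ)

/-- The progress measured by the last votes for the move `j` with priority `c`. -/
noncomputable def mx (w : List Bool) (j c : ℕ) : ℕ := max (lp w (col j c false)) (lp w (col j c true))

/-- The progress of the guess `c` about the moves before `k`. -/
noncomputable def meas (c : ℕ) (σ : List Bool) : ℕ → ℕ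
  | 0 => σ.length
  | k + 1 => if k % 2 = β then meas c σ k else
      min (meas c σ k) (mx (dec E τ (comp c 0) σ) k (comp c (k + 1)))

open Classical in
/-- The moves before `k` according to the guess `c`. -/
noncomputable def gl (c : ℕ) (σ : List Bool) : ℕ → List Bool
  | 0 => []
  | k + 1 => gl c σ k ++ [if k % 2 = β then g (gl c σ k) else
      decide (lp (dec E τ (comp c 0) σ) (col k (comp c (k + 1)) false) <
        lp (dec E τ (comp c 0) σ) (col k (comp c (k + 1)) true))]

open Classical in
/-- The bit number `n` of the data of the player `β`, computed from the bits of the other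
player. -/
noncomputable def uu (b : ℕ → Bool) (n : ℕ) : Bool :=
  decide (n.unpair.1.unpair.1.unpair.1 % 2 = β ∧
    n.unpair.1.unpair.2 = (g (gl E τ g β n.unpair.1.unpair.1.unpair.2 (pre b n)
      n.unpair.1.unpair.1.unpair.1)).toNat ∧
    meas E τ β n.unpair.1.unpair.1.unpair.2 (pre b (Nat.pair n.unpair.1 (n.unpair.2 - 1)))
      n.unpair.1.unpair.1.unpair.1 <
    meas E τ β n.unpair.1.unpair.1.unpair.2 (pre b n) n.unpair.1.unpair.1.unpair.1)

end

variable {E : ℕ → List Bool → ℕ → Bool → Prop} {τ : List Bool → List Bool}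
  {g : List Bool → Bool} {β : ℕ}

theorem mx_mono {w w' : List Bool} (h : w <+: w') (j c : ℕ) : mx w j c ≤ mx w' j c :=
  max_le_max (lp_mono h _) (lp_mono h _)

theorem meas_mono (hE : Fam E) (hτ : Tree E τ) {c : ℕ} {σ σ' : List Bool} (h : σ <+: σ')
    (k : ℕ) : meas E τ β c σ k ≤ meas E τ β c σ' k := by
  induction k with
  | zero => exact h.length_le
  | succ k ih =>
    rw [meas, meas]
    split_ifs
    · exact ih
    · exact min_le_min ih (mx_mono (dec_mono hE hτ h) _ _)

theorem uu_iff (b : ℕ → Bool) (k c s : ℕ) (v : Bool) :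
    uu E τ g β b (Nat.pair (col k c v) s) = true ↔ k % 2 = β ∧
      v = g (gl E τ g β c (pre b (Nat.pair (col k c v) s)) k) ∧
      meas E τ β c (pre b (Nat.pair (col k c v) (s - 1))) k <
        meas E τ β c (pre b (Nat.pair (col k c v) s)) k := by
  simp only [uu, decide_eq_true_eq, Nat.unpair_pair, col]
  have : ∀ w : Bool, v.toNat = w.toNat ↔ v = w := by
    intro w
    cases v <;> cases w <;> simp
  rw [this]

theorem uu_congr {b b' : ℕ → Bool} {n : ℕ} (h : ∀ i < n, b i = b' i) :
    uu E τ g β b n = uu E τ g β b' n := by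
  have h1 : pre b n = pre b' n := List.map_congr_left fun i hi => by
    rw [List.mem_range] at hi
    exact h i hi
  have h2 : Nat.pair n.unpair.1 (n.unpair.2 - 1) ≤ n := by
    rcases Nat.eq_zero_or_pos n.unpair.2 with h3 | h3
    · have h4 : n.unpair.2 - 1 = n.unpair.2 := by omega
      rw [h4, Nat.pair_unpair]
    · have := Nat.pair_lt_pair_right n.unpair.1 (show n.unpair.2 - 1 < n.unpair.2 by omega)
      rw [Nat.pair_unpair] at this
      exact this.le
  have h3 : pre b (Nat.pair n.unpair.1 (n.unpair.2 - 1)) =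
      pre b' (Nat.pair n.unpair.1 (n.unpair.2 - 1)) := List.map_congr_left fun i hi => by
    rw [List.mem_range] at hi
    exact h i (by omega)
  rw [uu, uu, h1, h3]

theorem pair_le_pair_right (q : ℕ) {s s' : ℕ} (h : s ≤ s') : Nat.pair q s ≤ Nat.pair q s' := by
  rcases Nat.eq_or_lt_of_le h with rfl | h
  · exact le_rfl
  · exact (Nat.pair_lt_pair_right q h).le

/-- Votes are cast only while there is progress. -/
theorem not_often_of_bounded (hE : Fam E) (hτ : Tree E τ) {b : ℕ → Bool} {k c : ℕ}
    (h : ¬ ∀ M, ∃ t, M ≤ meas E τ β c (pre b t) k) (v : Bool) :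
    ¬ Often (uu E τ g β b) (col k c v) := by
  intro h1
  refine h fun M => ?_
  have key : ∀ M, ∃ s, M ≤ meas E τ β c (pre b (Nat.pair (col k c v) s)) k := by
    intro M
    induction M with
    | zero => exact ⟨0, Nat.zero_le _⟩
    | succ M ih =>
      obtain ⟨s, hs⟩ := ih
      obtain ⟨s', h2, h3⟩ := h1 (s + 1)
      rw [uu_iff] at h3
      refine ⟨s', ?_⟩
      have h4 := meas_mono (β := β) (c := c) hE hτ (pre_prefix b (pair_le_pair_right (col k c v)
        (show s ≤ s' - 1 by omega))) k
      omega
  obtain ⟨s, hs⟩ := key M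
  exact ⟨_, hs⟩

theorem often_of_unbounded (hE : Fam E) (hτ : Tree E τ) {b : ℕ → Bool} {k c : ℕ}
    (h : ∀ M, ∃ t, M ≤ meas E τ β c (pre b t) k) (hk : k % 2 = β) {v : Bool} {n0 : ℕ}
    (hv : ∀ n ≥ n0, g (gl E τ g β c (pre b n) k) = v) :
    Often (uu E τ g β b) (col k c v) ∧ ¬ Often (uu E τ g β b) (col k c (!v)) := by
  constructor
  · intro N
    by_contra h1
    push Not at h1
    have h2 : ∀ s ≥ max N n0, meas E τ β c (pre b (Nat.pair (col k c v) s)) k ≤
        meas E τ β c (pre b (Nat.pair (col k c v) (max N n0))) k := by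
      intro s hs
      induction s, hs using Nat.le_induction with
      | base => exact le_rfl
      | succ s hs ih =>
        refine le_trans ?_ ih
        by_contra h3
        refine h1 (s + 1) (by omega) ?_
        rw [uu_iff]
        refine ⟨hk, (hv _ ?_).symm, ?_⟩
        · have := Nat.right_le_pair (col k c v) (s + 1)
          omega
        · rw [Nat.add_sub_cancel]
          exact not_le.1 h3
    obtain ⟨t, ht⟩ := h (meas E τ β c (pre b (Nat.pair (col k c v) (max N n0))) k + 1)
    have h3 := h2 (max t (max N n0)) (le_max_right _ _)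
    have h4 : meas E τ β c (pre b t) k ≤
        meas E τ β c (pre b (Nat.pair (col k c v) (max t (max N n0)))) k :=
      meas_mono hE hτ (pre_prefix b ((le_max_left t (max N n0)).trans (Nat.right_le_pair _ _))) k
    omega
  · intro h1
    obtain ⟨s, h2, h3⟩ := h1 n0
    rw [uu_iff] at h3
    have h4 := hv _ (h2.le.trans (Nat.right_le_pair (col k c !v) s))
    rw [h4] at h3
    have h5 := h3.2.1
    revert h5
    cases v <;> simp

theorem min_unbounded {f f' : ℕ → ℕ} (hf : ∀ s t, s ≤ t → f s ≤ f t)
    (hf' : ∀ s t, s ≤ t → f' s ≤ f' t) (h : ∀ M, ∃ t, M ≤ f t) (h' : ∀ M, ∃ t, M ≤ f' t) :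
    ∀ M, ∃ t, M ≤ min (f t) (f' t) := by
  intro M
  obtain ⟨t, ht⟩ := h M
  obtain ⟨t', ht'⟩ := h' M
  exact ⟨max t t', le_min (ht.trans (hf _ _ (le_max_left _ _)))
    (ht'.trans (hf' _ _ (le_max_right _ _)))⟩

theorem meas_unbounded_iff (hE : Fam E) (hτ : Tree E τ) {b : ℕ → Bool} {c : ℕ} (k : ℕ) :
    (∀ M, ∃ t, M ≤ meas E τ β c (pre b t) k) ↔
      ∀ j < k, j % 2 ≠ β → ∀ M, ∃ t, M ≤ mx (dec E τ (comp c 0) (pre b t)) j (comp c (j + 1)) := by
  induction k with
  | zero =>
    refine ⟨fun _ j hj => by omega, fun _ M => ⟨M, ?_⟩⟩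
    rw [meas, length_pre]
  | succ k ih =>
    have hstep : ∀ t, meas E τ β c (pre b t) (k + 1) = if k % 2 = β then
        meas E τ β c (pre b t) k else min (meas E τ β c (pre b t) k)
          (mx (dec E τ (comp c 0) (pre b t)) k (comp c (k + 1))) := fun t => by rw [meas]
    by_cases hk : k % 2 = β
    · simp only [hstep, if_pos hk]
      rw [ih]
      constructor
      · intro h j hj hj2
        rcases Nat.lt_succ_iff_lt_or_eq.1 hj with h1 | h1
        · exact h j h1 hj2
        · rw [h1] at hj2
          exact absurd hk hj2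
      · intro h j hj hj2
        exact h j (by omega) hj2
    · simp only [hstep, if_neg hk]
      constructor
      · intro h j hj hj2
        rcases Nat.lt_succ_iff_lt_or_eq.1 hj with h1 | h1
        · exact ih.1 (fun M => by
            obtain ⟨t, ht⟩ := h M
            exact ⟨t, ht.trans (min_le_left _ _)⟩) j h1 hj2
        · subst h1
          intro M
          obtain ⟨t, ht⟩ := h M
          exact ⟨t, ht.trans (min_le_right _ _)⟩
      · intro h
        refine min_unbounded (fun s t hst => meas_mono hE hτ (pre_prefix b hst) k)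
          (fun s t hst => mx_mono (dec_mono hE hτ (pre_prefix b hst)) _ _)
          (ih.2 fun j hj => h j (by omega)) (h k (by omega) hk)

end Pool.Agent.Y588.PD
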