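import Pool.Agent.Y588.PD.Cond

set_option autoImplicit false

namespace Pool.Agent.Y588.PD

open Encodable
open Pool.Agent.Helper227 Pool.Agent.H685R3

/-- A vote against the value `v` of the move `k` with priority `c`, from the position `N` on. -/
def Bad (k : ℕ) (v : Bool) (c N : ℕ) (w : List Bool) : Prop :=
  ∃ n ≥ N, n < w.length ∧ w.getD n false = true ∧
    (n.unpair.1 = col k c (!v) ∨ ∃ c' < c, ∃ v', n.unpair.1 = col k c' v')

theorem Bad.mono {k : ℕ} {v : Bool} {c N : ℕ} {w w' : List Bool} (h : w <+: w')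
    (hb : Bad k v c N w) : Bad k v c N w' := by
  obtain ⟨n, h1, h2, h3, h4⟩ := hb
  exact ⟨n, h1, lt_of_lt_of_le h2 h.length_le, by rw [getD_of_prefix h h2]; exact h3, h4⟩

variable {E : ℕ → List Bool → ℕ → Bool → Prop} {s : List Bool → Bool}
  {τ : List Bool → List Bool} {β : ℕ}

/-- The condition excludes the value `v` of the move `k` for the indices `i`, `c`, `N`. -/
def Kill (E : ℕ → List Bool → ℕ → Bool → Prop) (s : List Bool → Bool)
    (τ : List Bool → List Bool) (β : ℕ) (q : Cond) (k : ℕ) (v : Bool) (i c N : ℕ) : Prop :=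
  Bad k v c N (dq E s τ β i q.1) ∨
    ∃ M, ∀ p', Fz q.2 q.1 p' → lp (dq E s τ β i p') (col k c v) ≤ M

theorem Kill.mono (hE : Fam E) (hτ : Tree E τ) (hβ : β < 2) {q q' : Cond} (h : Le q' q)
    {k : ℕ} {v : Bool} {i c N : ℕ} (hk : Kill E s τ β q k v i c N) :
    Kill E s τ β q' k v i c N := by
  rcases hk with hk | ⟨M, hM⟩
  · exact Or.inl (hk.mono (dq_mono hE hτ hβ h.2.1 i))
  · exact Or.inr ⟨M, fun p' hp' => hM p' (h.2.trans (hp'.anti h.1))⟩

/-- The indices `i`, `c`, `N` witness the value `v` of the move `k`. -/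
def QQ (E : ℕ → List Bool → ℕ → Bool → Prop) (s : List Bool → Bool)
    (τ : List Bool → List Bool) (β : ℕ) (z : ℕ → Bool) (k : ℕ) (v : Bool) (i c N : ℕ) : Prop :=
  (∀ M, ∃ t, M ≤ lp (dec E τ i (pre (aa s τ β z) t)) (col k c v)) ∧
    ∀ t, ¬ Bad k v c N (dec E τ i (pre (aa s τ β z) t))

theorem Kill.not_QQ (hE : Fam E) (hτ : Tree E τ) (hβ : β < 2) {q : Cond} {z : ℕ → Bool}
    {k : ℕ} {v : Bool} {i c N : ℕ} (hk : Kill E s τ β q k v i c N) (hz : ZE z q) :
    ¬ QQ E s τ β z k v i c N := by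
  rintro ⟨h1, h2⟩
  rcases hk with hk | ⟨M, hM⟩
  · rw [dq_of_ini hβ hz.1] at hk
    exact h2 _ hk
  · obtain ⟨t, ht⟩ := h1 (M + 1)
    have h3 := hM _ (hz.fz (le_max_right t q.1.length))
    rw [dq_pre hβ] at h3
    have h4 := lp_mono (dec_mono (i := i) hE hτ
      (pre_prefix (aa s τ β z) (le_max_left t q.1.length))) (col k c v)
    omega

theorem QQ.out (hE : Fam E) (hτ : Tree E τ) {z : ℕ → Bool} {k : ℕ} {v : Bool} {i c N : ℕ}
    (h : QQ E s τ β z k v i c N) : ∃ u, REq E (aa s τ β z) (kap τ u) ∧ Out u k v := by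
  have h1 : ∀ m, ∃ t, m ≤ (dec E τ i (pre (aa s τ β z) t)).length := by
    intro m
    obtain ⟨t, ht⟩ := h.1 m
    exact ⟨t, ht.trans (lp_le_length _ _)⟩
  obtain ⟨u, h2, h3⟩ := exists_of_candidate hE hτ h1
  have h4 : ∀ q, (q = col k c (!v) ∨ ∃ c' < c, ∃ v', q = col k c' v') → ¬ Often u q := by
    intro q hq ho
    obtain ⟨s', h5, h6⟩ := ho N
    obtain ⟨t, ht⟩ := h1 (Nat.pair q s' + 1)
    refine h.2 t ⟨Nat.pair q s', h5.le.trans (Nat.right_le_pair _ _), by omega, ?_, ?_⟩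
    · rw [← h2 t _ (by omega)]
      exact h6
    · rw [Nat.unpair_pair]
      exact hq
  exact ⟨u, h3, c, often_of_lp h2 h.1, h4 _ (Or.inl rfl),
    fun c' hc' v' => h4 _ (Or.inr ⟨c', hc', v', rfl⟩)⟩

theorem exists_QQ (hE : Fam E) (hτ : Tree E τ) {z u : ℕ → Bool} {k : ℕ} {v : Bool}
    (hu : REq E (aa s τ β z) (kap τ u)) (ho : Out u k v) :
    ∃ i c N, QQ E s τ β z k v i c N := by
  classical
  obtain ⟨i, h1, h2⟩ := exists_candidate hE hτ hu
  obtain ⟨c, h3, h4, h5⟩ := ho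
  let S : Finset ℕ := insert (col k c (!v))
    ((Finset.range c ×ˢ (Finset.univ : Finset Bool)).image fun p => col k p.1 p.2)
  have hS : ∀ q, (q = col k c (!v) ∨ ∃ c' < c, ∃ v', q = col k c' v') → q ∈ S := by
    rintro q (rfl | ⟨c', h6, v', rfl⟩)
    · exact Finset.mem_insert_self _ _
    · refine Finset.mem_insert_of_mem (Finset.mem_image.2 ⟨(c', v'), ?_, rfl⟩)
      simp [h6]
  have h6 : ∀ q, ∃ M, q ∈ S → ∀ s' ≥ M, u (Nat.pair q s') ≠ true := by
    intro q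
    by_cases hq : q ∈ S
    · have h7 : ¬ Often u q := by
        rcases Finset.mem_insert.1 hq with rfl | h7
        · exact h4
        · obtain ⟨⟨c', v'⟩, h8, rfl⟩ := Finset.mem_image.1 h7
          simp only [Finset.mem_product, Finset.mem_range, Finset.mem_univ, and_true] at h8
          exact h5 c' h8 v'
      unfold Often at h7
      push Not at h7
      obtain ⟨M, hM⟩ := h7
      exact ⟨M, fun _ => hM⟩
    · exact ⟨0, fun h => absurd h hq⟩
  choose M hM using h6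
  refine ⟨i, c, S.sup fun q => Nat.pair q (M q), lp_of_often h2 h1 h3, ?_⟩
  rintro t ⟨n, h7, h8, h9, h10⟩
  have h11 := hS _ h10
  have h12 : Nat.pair n.unpair.1 (M n.unpair.1) ≤ n :=
    (Finset.le_sup (f := fun q => Nat.pair q (M q)) h11).trans h7
  have h13 := hM _ h11 _ (le_unpair_of_le h12 rfl)
  rw [Nat.pair_unpair, h2 t n h8] at h13
  exact h13 h9

/-- The designated columns of the history `h` are not frozen. -/
def Avoid (β : ℕ) (h : List Bool) (hc : ℕ → ℕ) (F : Finset ℕ) : Prop :=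
  ∀ j < h.length, j % 2 ≠ β → col j (hc j) (h.getD j false) ∉ F

/-- The columns opposed to the designated columns of the history `h` are frozen. -/
def Froz (β : ℕ) (h : List Bool) (hc : ℕ → ℕ) (F : Finset ℕ) : Prop :=
  ∀ j < h.length, j % 2 ≠ β → col j (hc j) (!(h.getD j false)) ∈ F ∧
    ∀ c' < hc j, ∀ v', col j c' v' ∈ F

/-- The votes for the designated columns from the position `N` on. -/
def Vot (β : ℕ) (h : List Bool) (hc : ℕ → ℕ) (N : ℕ) (p : List Bool) : Prop :=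
  ∀ j < h.length, j % 2 ≠ β → ∃ m ≥ N, m < p.length ∧
    m.unpair.1 = col j (hc j) (h.getD j false) ∧ p.getD m false = true

theorem Vot.mono {h : List Bool} {hc : ℕ → ℕ} {N : ℕ} {p p' : List Bool} (hp : p <+: p')
    (hv : Vot β h hc N p) : Vot β h hc N p' := by
  intro j hj hjβ
  obtain ⟨m, h1, h2, h3, h4⟩ := hv j hj hjβ
  exact ⟨m, h1, lt_of_lt_of_le h2 hp.length_le, h3, by rw [getD_of_prefix hp h2]; exact h4⟩

theorem exists_vot {h : List Bool} {hc : ℕ → ℕ} {F : Finset ℕ} (hA : Avoid β h hc F)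
    (N : ℕ) (p : List Bool) : ∃ p', Fz F p p' ∧ Vot β h hc N p' := by
  have key : ∀ K, ∃ p', Fz F p p' ∧ ∀ j < h.length, j < K → j % 2 ≠ β → ∃ m ≥ N,
      m < p'.length ∧ m.unpair.1 = col j (hc j) (h.getD j false) ∧ p'.getD m false = true := by
    intro K
    induction K with
    | zero => exact ⟨p, Fz.refl _ _, fun j _ hj => by omega⟩
    | succ K ih =>
      obtain ⟨p1, h1, h2⟩ := ih
      by_cases hK : K < h.length ∧ K % 2 ≠ β
      · obtain ⟨p2, h3, m, h4, h5, h6, h7⟩ := exists_vote F p1 _ N (hA K hK.1 hK.2)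
        refine ⟨p2, h1.trans h3, fun j hj hjK hjβ => ?_⟩
        rcases Nat.lt_succ_iff_lt_or_eq.1 hjK with h8 | h8
        · obtain ⟨m', h9, h10, h11, h12⟩ := h2 j hj h8 hjβ
          exact ⟨m', h9, lt_of_lt_of_le h10 h3.1.length_le, h11,
            by rw [getD_of_prefix h3.1 h10]; exact h12⟩
        · subst h8
          exact ⟨m, h4, h5, h6, h7⟩
      · refine ⟨p1, h1, fun j hj hjK hjβ => ?_⟩
        rcases Nat.lt_succ_iff_lt_or_eq.1 hjK with h8 | h8
        · exact h2 j hj h8 hjβ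
        · subst h8
          exact absurd ⟨hj, hjβ⟩ hK
  obtain ⟨p', h1, h2⟩ := key h.length
  exact ⟨p', h1, fun j hj hjβ => h2 j hj hj hjβ⟩

theorem often_of_vot {h : List Bool} {hc : ℕ → ℕ} {z : ℕ → Bool}
    (hv : ∀ N, ∃ p, Vot β h hc N p ∧ Ini p z) {j : ℕ} (hj : j < h.length) (hjβ : j % 2 ≠ β) :
    Often z (col j (hc j) (h.getD j false)) := by
  intro N
  obtain ⟨p, h1, h2⟩ := hv (Nat.pair (col j (hc j) (h.getD j false)) N)
  obtain ⟨m, h3, h4, h5, h6⟩ := h1 j hj hjβ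
  refine ⟨m.unpair.2, le_unpair_of_le h3 h5, ?_⟩
  have h7 : Nat.pair (col j (hc j) (h.getD j false)) m.unpair.2 = m := by
    rw [← h5, Nat.pair_unpair]
  rw [h7, h2 m h4]
  exact h6

theorem out_opp {h : List Bool} {hc : ℕ → ℕ} {z : ℕ → Bool} {q : Cond} (hz : ZE z q)
    (hF : Froz β h hc q.2) {j : ℕ} (hj : j < h.length) (hjβ : j % 2 ≠ β)
    (ho : Often z (col j (hc j) (h.getD j false))) : Out z j (h.getD j false) := by
  have h1 : ∀ r ∈ q.2, ¬ Often z r := by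
    intro r hr ho
    obtain ⟨s', h2, h3⟩ := ho q.1.length
    rw [hz.2 _ (h2.le.trans (Nat.right_le_pair _ _)) (by rw [Nat.unpair_pair]; exact hr)] at h3
    cases h3
  obtain ⟨h2, h3⟩ := hF j hj hjβ
  exact ⟨hc j, ho, h1 _ h2, fun c' hc' v' => h1 _ (h3 c' hc' v')⟩

variable {B : Set (ℕ → Bool)}

theorem exists_good (hβ : β < 2)
    (hs : ∀ x : ℕ → Bool, (∀ n, x (2 * n + β) = s (hist x (2 * n + β))) →
      (∃ z, REq E (part (1 - β) x) (kap τ z)) → x ∈ Sb E τ β B)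
    (hE : Nice E) (z : ℕ → Bool) :
    ∃ u, REq E (aa s τ β z) (kap τ u) ∧ GoodB β B u z := by
  have h1 : REq E (part (1 - β) (XX s τ β z)) (kap τ z) := by
    rw [XX_opp hβ]
    exact ⟨hE.refl _, hE.refl _⟩
  obtain ⟨⟨u, hu⟩, h2⟩ := hs (XX s τ β z) (XX_own hβ z) ⟨z, h1⟩
  exact ⟨u, hu, h2 u z hu h1⟩

theorem exists_value (hβ : β < 2)
    (hs : ∀ x : ℕ → Bool, (∀ n, x (2 * n + β) = s (hist x (2 * n + β))) →
      (∃ z, REq E (part (1 - β) x) (kap τ z)) → x ∈ Sb E τ β B)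
    (hE : Nice E) {z : ℕ → Bool} {k : ℕ} (hk : k % 2 = β) {y : ℕ → Bool}
    (hz : ∀ j < k, j % 2 ≠ β → Out z j (y j)) :
    ∃ v u, REq E (aa s τ β z) (kap τ u) ∧ Out u k v := by
  obtain ⟨u, hu, hg⟩ := exists_good hβ hs hE z
  rcases hg with ⟨y', _, h1⟩ | ⟨k', h1, h2, h3⟩
  · have h4 := h1 k
    rw [sel, if_pos hk] at h4
    exact ⟨_, u, hu, h4⟩
  · rw [sel, if_neg h1] at h2
    rcases lt_trichotomy k' k with h4 | h4 | h4
    · exact absurd (hz k' h4 h1) (h2 _)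
    · rw [h4] at h1
      exact absurd hk h1
    · obtain ⟨v, hv⟩ := h3 k h4
      rw [sel, if_pos hk] at hv
      exact ⟨v, u, hu, hv⟩

/-- Below a condition which cannot exclude a witness of `v`, all witnesses of the other value can
be excluded. -/
theorem kill_of_rich (hE : Nice E) (hτ : Tree E τ) (hβ : β < 2)
    {F : Finset ℕ} {p : List Bool} {k : ℕ} {v : Bool} {i c N : ℕ}
    (hr : ∀ p', Fz F p p' → ¬ Kill E s τ β (p', F) k v i c N) (i' c' N' : ℕ) :
    ∃ p', Fz F p p' ∧ Kill E s τ β (p', F) k (!v) i' c' N' := by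
  by_contra hcon
  have hr' : ∀ p', Fz F p p' → ¬ Kill E s τ β (p', F) k (!v) i' c' N' :=
    fun p' h1 h2 => hcon ⟨p', h1, h2⟩
  obtain ⟨z, hz, hgen⟩ := exists_generic (C := fun q => q.2 = F ∧ Fz F p q.1)
    (fun n q => n + 1 ≤ q.1.length ∧ n ≤ lp (dq E s τ β i q.1) (col k c v) ∧
      n ≤ lp (dq E s τ β i' q.1) (col k c' (!v))) (fun n q hq => by
        obtain ⟨q1, q2⟩ := q
        obtain ⟨rfl, hq2⟩ := hq
        have h1 := hr q1 hq2
        unfold Kill at h1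
        push Not at h1
        obtain ⟨p1, h2, h3⟩ := h1.2 n
        have h4 := hr' p1 (hq2.trans h2)
        unfold Kill at h4
        push Not at h4
        obtain ⟨p2, h5, h6⟩ := h4.2 n
        obtain ⟨p3, h7, h8⟩ := exists_longer q2 p2 (n + 1)
        refine ⟨(p3, q2), (h2.trans (h5.trans h7)).le, ⟨rfl, hq2.trans (h2.trans (h5.trans h7))⟩,
          h8, ?_, ?_⟩
        · have := lp_mono (dq_mono (s := s) hE.fam hτ hβ
            (show p1 <+: p3 from (h5.trans h7).1) i) (col k c v)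
          simp only
          omega
        · have := lp_mono (dq_mono (s := s) hE.fam hτ hβ
            (show p2 <+: p3 from h7.1) i') (col k c' (!v))
          simp only
          omega)
    (fun n q hq => hq.1) (q0 := (p, F)) ⟨rfl, Fz.refl _ _⟩
  have hQ : ∀ (w : Bool) (i c N : ℕ), (∀ p', Fz F p p' → ¬ Kill E s τ β (p', F) k w i c N) →
      (∀ n, ∃ q : Cond, (q.2 = F ∧ Fz F p q.1) ∧ (n + 1 ≤ q.1.length ∧
        n ≤ lp (dq E s τ β i q.1) (col k c w)) ∧ ZE z q) → QQ E s τ β z k w i c N := by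
    intro w i c N h1 h2
    refine ⟨fun M => ?_, fun t ht => ?_⟩
    · obtain ⟨q, _, ⟨_, h3⟩, h4⟩ := h2 M
      rw [dq_of_ini hβ h4.1] at h3
      exact ⟨_, h3⟩
    · obtain ⟨q, ⟨h3, h4⟩, ⟨h5, _⟩, h6⟩ := h2 t
      refine h1 q.1 h4 (Or.inl ?_)
      simp only
      rw [dq_of_ini hβ h6.1]
      exact ht.mono (dec_mono hE.fam hτ (pre_prefix _ (by omega)))
  obtain ⟨u, h1, h2⟩ := (hQ v i c N hr fun n => by
    obtain ⟨q, h1, h2, h3⟩ := hgen n
    exact ⟨q, h1, ⟨h2.1, h2.2.1⟩, h3⟩).out hE.fam hτ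
  obtain ⟨u', h1', h2'⟩ := (hQ (!v) i' c' N' hr' fun n => by
    obtain ⟨q, h1, h2, h3⟩ := hgen n
    exact ⟨q, h1, ⟨h2.1, h2.2.2⟩, h3⟩).out hE.fam hτ
  have h3 := hE.unique hτ h1 h1'
  subst h3
  have h4 := h2.unique h2'
  revert h4
  cases v <;> simp

/-- Below the condition all witnesses of the value `v` can be excluded, whatever else is frozen. -/
def BlockH (E : ℕ → List Bool → ℕ → Bool → Prop) (s : List Bool → Bool)
    (τ : List Bool → List Bool) (β : ℕ) (h : List Bool) (hc : ℕ → ℕ) (q : Cond) (k : ℕ)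
    (v : Bool) : Prop :=
  ∀ q', Le q' q → Avoid β h hc q'.2 → ∀ i c N, ∃ p'', Fz q'.2 q'.1 p'' ∧
    Kill E s τ β (p'', q'.2) k v i c N

theorem exists_block (hE : Nice E) (hτ : Tree E τ) (hβ : β < 2)
    (hs : ∀ x : ℕ → Bool, (∀ n, x (2 * n + β) = s (hist x (2 * n + β))) →
      (∃ z, REq E (part (1 - β) x) (kap τ z)) → x ∈ Sb E τ β B)
    {h : List Bool} {hc : ℕ → ℕ} {q : Cond} (hF : Froz β h hc q.2) (hA : Avoid β h hc q.2)
    (hk : h.length % 2 = β) :
    ∃ v q', Le q' q ∧ Avoid β h hc q'.2 ∧ BlockH E s τ β h hc q' h.length (!v) := by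
  by_contra hcon
  have star : ∀ (w : Bool) (q' : Cond), Le q' q → Avoid β h hc q'.2 → ∀ i c N, ∃ q'', Le q'' q' ∧
      Avoid β h hc q''.2 ∧ Kill E s τ β q'' h.length w i c N := by
    intro w q' h1 h2 i c N
    have h3 : ¬ BlockH E s τ β h hc q' h.length (!w) := fun h3 => hcon ⟨w, q', h1, h2, h3⟩
    unfold BlockH at h3
    push Not at h3
    obtain ⟨q'', h4, h5, i', c', N', h6⟩ := h3
    obtain ⟨p, h7, h8⟩ := kill_of_rich hE hτ hβ h6 i c N
    rw [Bool.not_not] at h8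
    exact ⟨(p, q''.2), h7.le.trans h4, h5, h8⟩
  obtain ⟨z, hz, hgen⟩ := exists_generic (C := fun q' => Le q' q ∧ Avoid β h hc q'.2)
    (fun n q' => n + 1 ≤ q'.1.length ∧ Vot β h hc n q'.1 ∧
      ∀ w, Kill E s τ β q' h.length w n.unpair.1 n.unpair.2.unpair.1 n.unpair.2.unpair.2)
    (fun n q' hq' => by
      obtain ⟨q1, h1, h2, h3⟩ := star false q' hq'.1 hq'.2 n.unpair.1 n.unpair.2.unpair.1
        n.unpair.2.unpair.2
      obtain ⟨q2, h4, h5, h6⟩ := star true q1 (h1.trans hq'.1) h2 n.unpair.1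
        n.unpair.2.unpair.1 n.unpair.2.unpair.2
      obtain ⟨p3, h7, h8⟩ := exists_vot h5 n q2.1
      obtain ⟨p4, h9, h10⟩ := exists_longer q2.2 p3 (n + 1)
      have h11 : Le (p4, q2.2) q2 := (h7.trans h9).le
      refine ⟨(p4, q2.2), h11.trans (h4.trans h1), ⟨h11.trans (h4.trans (h1.trans hq'.1)), h5⟩,
        h10, h8.mono h9.1, fun w => ?_⟩
      cases w
      · exact h3.mono hE.fam hτ hβ (h11.trans h4)
      · exact h6.mono hE.fam hτ hβ h11)
    (fun n q hq => hq.1) (q0 := q) ⟨Le.refl q, hA⟩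
  have hout : ∀ j < h.length, j % 2 ≠ β → Out z j (h.getD j false) := by
    intro j hj hjβ
    refine out_opp hz hF hj hjβ (often_of_vot (fun N => ?_) hj hjβ)
    obtain ⟨q', _, h1, h2⟩ := hgen N
    exact ⟨q'.1, h1.2.1, h2.1⟩
  obtain ⟨v, u, h1, h2⟩ := exists_value hβ hs hE hk (y := fun j => h.getD j false) hout
  obtain ⟨i, c, N, h3⟩ := exists_QQ hE.fam hτ h1 h2
  obtain ⟨q', _, h4, h5⟩ := hgen (Nat.pair i (Nat.pair c N))
  have h6 := h4.2.2 v
  simp only [Nat.unpair_pair] at h6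
  exact h6.not_QQ hE.fam hτ hβ h5 h3

end Pool.Agent.Y588.PD
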