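import Pool.Agent.Y588.PD.Back

set_option autoImplicit false

namespace Pool.Agent.Y588.PD

open Pool.Agent.Helper227 Pool.Agent.H685R3

theorem sel_swap (u z : ℕ → Bool) (k : ℕ) : sel 1 z u k = sel 0 u z k := by
  rw [sel, sel]
  by_cases h : k % 2 = 0
  · rw [if_neg (by omega), if_pos h]
  · rw [if_pos (by omega), if_neg h]

theorem good_iff (A : Set (ℕ → Bool)) (u z : ℕ → Bool) : Good A u z ↔ GoodB 0 A u z := by
  refine or_congr Iff.rfl (exists_congr fun k => and_congr_left fun _ => ?_)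
  omega

theorem not_good_iff (A : Set (ℕ → Bool)) (u z : ℕ → Bool) :
    ¬ Good A u z ↔ GoodB 1 Aᶜ z u := by
  constructor
  · intro hx
    by_cases h : ∀ k, ∃ b, Out (sel 0 u z k) k b
    · choose y hy using h
      refine Or.inl ⟨y, fun hA => hx (Or.inl ⟨y, hA, hy⟩), fun k => ?_⟩
      rw [sel_swap]
      exact hy k
    · obtain ⟨k, h1, h2⟩ := exists_least_out h
      refine Or.inr ⟨k, fun h3 => hx (Or.inr ⟨k, h3, h1, h2⟩), fun b => ?_, fun j hj => ?_⟩
      · rw [sel_swap]
        exact h1 b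
      · rw [sel_swap]
        exact h2 j hj
  · rintro (⟨y, hy, h1⟩ | ⟨k, hk, h1, h2⟩) (⟨y', hy', h3⟩ | ⟨k', hk', h3, h4⟩)
    · have : y = y' := funext fun k => by
        have := h1 k
        rw [sel_swap] at this
        exact this.unique (h3 k)
      rw [this] at hy
      exact hy hy'
    · have := h1 k'
      rw [sel_swap] at this
      exact h3 _ this
    · refine h1 (y' k) ?_
      rw [sel_swap]
      exact h3 k
    · rcases lt_trichotomy k k' with h5 | h5 | h5
      · obtain ⟨b, hb⟩ := h4 k h5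
        refine h1 b ?_
        rw [sel_swap]
        exact hb
      · rw [h5] at hk
        exact hk hk'
      · obtain ⟨b, hb⟩ := h2 k' h5
        rw [sel_swap] at hb
        exact h3 b hb

theorem SameDegree.trans {x y z : ℕ → Bool} (h : SameDegree x y) (h' : SameDegree y z) :
    SameDegree x z := ⟨h.1.trans h'.1, h'.2.trans h.2⟩

theorem SameDegree.symm {x y : ℕ → Bool} (h : SameDegree x y) : SameDegree y x := ⟨h.2, h.1⟩

theorem pairInvariant_coded (κ : (ℕ → Bool) → ℕ → Bool) (A : Set (ℕ → Bool)) :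
    PairInvariant (Coded κ A) := by
  rintro x y h0 h1 ⟨⟨u, hu⟩, h2⟩
  exact ⟨⟨u, h0.symm.trans hu⟩, fun u z hu hz => h2 u z (h0.trans hu) (h1.trans hz)⟩

theorem pairInvariant_of_turing {A : Set (ℕ → Bool)} (hA : TuringInvariant A) :
    PairInvariant A := by
  have key : ∀ x y : ℕ → Bool, SameDegree (part 0 x) (part 0 y) →
      SameDegree (part 1 x) (part 1 y) → TLe x y := by
    intro x y h0 h1
    have h2 : x = join (part 0 x) (part 1 x) := by
      funext n
      rcases Nat.even_or_odd' n with ⟨k, rfl | rfl⟩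
      · simp only [join, part]
        rw [if_pos (by omega)]
        congr 1
        omega
      · simp only [join, part]
        rw [if_neg (by omega)]
        congr 1
        omega
    have h3 : ∀ β : ℕ, TLe (part β y) y := by
      intro β
      have hf : Primrec fun n : ℕ => 2 * n + β :=
        Primrec.nat_add.comp (Primrec.nat_mul.comp (Primrec.const 2) Primrec.id)
          (Primrec.const β)
      exact tLe_of_computable hf.to_comp fun n => rfl
    rw [h2]
    exact tLe_join_of (TuringReducible.trans h0.1 (h3 0)) (TuringReducible.trans h1.1 (h3 1))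
  exact fun x y h0 h1 hx => hA _ _ (key x y h0 h1) (key y x h0.symm h1.symm) hx

theorem main : ∃ κ : (ℕ → Bool) → ℕ → Bool, Continuous κ ∧ ∀ A : Set (ℕ → Bool),
    PairInvariant (Coded κ A) ∧ (WinsI (Coded κ A) ↔ WinsI A) ∧
      (WinsII (Coded κ A) ↔ WinsII A) := by
  obtain ⟨E, hE0, hE1⟩ := exists_fam
  have hE : Nice E := ⟨hE0, fun x => (hE1 x x).1 (TuringReducible.refl _), fun x y z h h' =>
    (hE1 x z).1 (TuringReducible.trans ((hE1 x y).2 h) ((hE1 y z).2 h'))⟩
  obtain ⟨τ, hτ⟩ := exists_tree hE0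
  have hdeg : ∀ x y, SameDegree x y ↔ REq E x y := fun x y =>
    and_congr (hE1 x y) (hE1 y x)
  refine ⟨kap τ, continuous_kap τ, fun A => ⟨pairInvariant_coded _ A, ?_, ?_⟩⟩
  · have h0 : Coded (kap τ) A = Sb E τ 0 A := by
      ext x
      simp only [Coded, Sb, Set.mem_setOf_eq, hdeg, good_iff]
    rw [winsI_iff, winsI_iff, h0]
    constructor
    · rintro ⟨s, hs⟩
      exact wins_of_Sb hE hτ (by omega) ⟨s, fun x hx _ => hs x hx⟩
    · exact wins_Sb hE hτ (by omega)
  · rw [winsII_iff, winsII_iff]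
    constructor
    · rintro ⟨s, hs⟩
      refine wins_of_Sb hE hτ (β := 1) (by omega) ⟨s, fun x hx => ?_⟩
      rintro ⟨u0, hu0⟩
      have hx1 : x ∉ Coded (kap τ) A := hs x hx
      have hu0 : REq E (part 0 x) (kap τ u0) := hu0
      have h1 : ∃ u z, REq E (part 0 x) (kap τ u) ∧ REq E (part 1 x) (kap τ z) ∧
          ¬ Good A u z := by
        by_contra h1
        push Not at h1
        exact hx1 ⟨⟨u0, (hdeg _ _).2 hu0⟩, fun u z hu hz =>
          h1 u z ((hdeg _ _).1 hu) ((hdeg _ _).1 hz)⟩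
      obtain ⟨u, z, hu, hz, hg⟩ := h1
      refine ⟨⟨z, hz⟩, fun z' u' hz' hu' => ?_⟩
      rw [hE.unique hτ hz' hz, hE.unique hτ hu' hu]
      exact (not_good_iff A u z).1 hg
    · intro h
      obtain ⟨s, hs⟩ := wins_Sb hE hτ (β := 1) (by omega) h
      refine ⟨s, fun x hx hmem => ?_⟩
      obtain ⟨⟨z, hz⟩, h1⟩ := hs x hx
      obtain ⟨⟨u, hu⟩, h2⟩ := hmem
      exact (not_good_iff A u z).2 (h1 z u hz ((hdeg _ _).1 hu)) (h2 u z hu ((hdeg _ _).2 hz))

end Pool.Agent.Y588.PD
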