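import Pool.Agent.Y588.PD.Dec
import Pool.Agent.Y588.PD.Defs

set_option autoImplicit false

namespace Pool.Agent.Y588.PD

open Pool.Agent.Helper227 Pool.Agent.H685R3

theorem Out.unique {u : ℕ → Bool} {k : ℕ} {v v' : Bool} (h : Out u k v) (h' : Out u k v') :
    v = v' := by
  obtain ⟨c, h1, h2, h3⟩ := h
  obtain ⟨c', h1', h2', h3'⟩ := h'
  rcases lt_trichotomy c c' with h4 | h4 | h4
  · exact absurd h1 (h3' c h4 v)
  · subst h4
    by_contra h5
    have h6 : v' = !v := by
      revert h5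
      cases v <;> cases v' <;> simp
    rw [h6] at h1'
    exact h2 h1'
  · exact absurd h1' (h3 c' h4 v')

theorem col_inj {k c k' c' : ℕ} {v v' : Bool} (h : col k c v = col k' c' v') :
    k = k' ∧ c = c' ∧ v = v' := by
  have h1 := Nat.pair_eq_pair.1 h
  have h2 := Nat.pair_eq_pair.1 h1.1
  refine ⟨h2.1, h2.2, ?_⟩
  have h3 := h1.2
  revert h3
  cases v <;> cases v' <;> simp

/-- One more than the position of the last one of `w` in the column `q`. -/
def lp (w : List Bool) (q : ℕ) : ℕ :=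
  (Finset.range w.length).sup fun n => if n.unpair.1 = q ∧ w.getD n false = true then n + 1 else 0

theorem lp_le_length (w : List Bool) (q : ℕ) : lp w q ≤ w.length := by
  refine Finset.sup_le fun n hn => ?_
  rw [Finset.mem_range] at hn
  split_ifs <;> omega

theorem le_lp {w : List Bool} {q n : ℕ} (hn : n < w.length) (h1 : n.unpair.1 = q)
    (h2 : w.getD n false = true) : n + 1 ≤ lp w q := by
  have h3 := Finset.le_sup (f := fun n => if n.unpair.1 = q ∧ w.getD n false = true
    then n + 1 else 0) (Finset.mem_range.2 hn)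
  simp only [h1, h2, true_and, if_true] at h3
  exact h3

theorem exists_of_lt_lp {w : List Bool} {q N : ℕ} (h : N < lp w q) :
    ∃ n ≥ N, n < w.length ∧ n.unpair.1 = q ∧ w.getD n false = true := by
  by_contra h1
  push Not at h1
  refine absurd h (not_lt.2 (Finset.sup_le fun n hn => ?_))
  rw [Finset.mem_range] at hn
  split_ifs with h2
  · by_contra h3
    exact h1 n (by omega) hn h2.1 h2.2
  · omega

theorem lp_mono {w w' : List Bool} (h : w <+: w') (q : ℕ) : lp w q ≤ lp w' q := by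
  refine Finset.sup_le fun n hn => ?_
  rw [Finset.mem_range] at hn
  split_ifs with h2
  · refine le_lp (lt_of_lt_of_le hn h.length_le) h2.1 ?_
    rw [getD_of_prefix h hn]
    exact h2.2
  · omega

theorem le_unpair_of_le {q N n : ℕ} (h : Nat.pair q N ≤ n) (hq : n.unpair.1 = q) :
    N ≤ n.unpair.2 := by
  by_contra h1
  have h2 := Nat.pair_lt_pair_right q (not_le.1 h1)
  rw [← hq, Nat.pair_unpair] at h2
  rw [hq] at h2
  omega

theorem often_of_lp {W : ℕ → List Bool} {u : ℕ → Bool} (hW : ∀ t, Ini (W t) u) {q : ℕ}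
    (h : ∀ N, ∃ t, N ≤ lp (W t) q) : Often u q := by
  intro N
  obtain ⟨t, ht⟩ := h (Nat.pair q N + 1)
  obtain ⟨n, h1, h2, h3, h4⟩ := exists_of_lt_lp (N := Nat.pair q N) (w := W t) (q := q) (by omega)
  refine ⟨n.unpair.2, le_unpair_of_le h1 h3, ?_⟩
  have h5 : Nat.pair q n.unpair.2 = n := by rw [← h3, Nat.pair_unpair]
  rw [h5, hW t n h2]
  exact h4

theorem lp_of_often {W : ℕ → List Bool} {u : ℕ → Bool} (hW : ∀ t, Ini (W t) u)
    (hl : ∀ m, ∃ t, m ≤ (W t).length) {q : ℕ} (h : Often u q) : ∀ N, ∃ t, N ≤ lp (W t) q := by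
  intro N
  obtain ⟨s, h1, h2⟩ := h N
  obtain ⟨t, ht⟩ := hl (Nat.pair q s + 1)
  have h3 := le_lp (w := W t) (q := q) (n := Nat.pair q s) (by omega) (by rw [Nat.unpair_pair])
    (by rw [← hW t _ (by omega)]; exact h2)
  have h4 := Nat.right_le_pair q s
  exact ⟨t, by omega⟩

/-- The components of the code of a sequence. -/
def comp (c j : ℕ) : ℕ := ((fun m => m.unpair.2)^[j] c).unpair.1

theorem comp_zero (c : ℕ) : comp c 0 = c.unpair.1 := rfl

theorem comp_succ (c j : ℕ) : comp c (j + 1) = comp c.unpair.2 j := rfl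

theorem exists_code (f : ℕ → ℕ) (n : ℕ) : ∃ c, ∀ l < n, comp c l = f l := by
  induction n generalizing f with
  | zero => exact ⟨0, fun l hl => by omega⟩
  | succ n ih =>
    obtain ⟨c, hc⟩ := ih fun l => f (l + 1)
    refine ⟨Nat.pair (f 0) c, fun l hl => ?_⟩
    cases l with
    | zero => rw [comp_zero, Nat.unpair_pair]
    | succ l =>
      rw [comp_succ, Nat.unpair_pair]
      exact hc l (by omega)

theorem exists_update (c j m : ℕ) (h : m < comp c j) :
    ∃ c' < c, comp c' j = m ∧ ∀ l ≠ j, comp c' l = comp c l := by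
  induction j generalizing c with
  | zero =>
    rw [comp_zero] at h
    refine ⟨Nat.pair m c.unpair.2, ?_, by rw [comp_zero, Nat.unpair_pair], fun l hl => ?_⟩
    · have := Nat.pair_lt_pair_left c.unpair.2 h
      rwa [Nat.pair_unpair] at this
    · obtain ⟨l, rfl⟩ : ∃ l', l = l' + 1 := ⟨l - 1, by omega⟩
      rw [comp_succ, comp_succ, Nat.unpair_pair]
  | succ j ih =>
    rw [comp_succ] at h
    obtain ⟨c', h1, h2, h3⟩ := ih _ h
    refine ⟨Nat.pair c.unpair.1 c', ?_, by rw [comp_succ, Nat.unpair_pair]; exact h2,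
      fun l hl => ?_⟩
    · have := Nat.pair_lt_pair_right c.unpair.1 h1
      rwa [Nat.pair_unpair] at this
    · cases l with
      | zero => rw [comp_zero, comp_zero, Nat.unpair_pair]
      | succ l =>
        rw [comp_succ, comp_succ, Nat.unpair_pair]
        exact h3 l (by omega)

/-- The data `u` of the player `β` and `z` of the other player are good for the player `β`. -/
def GoodB (β : ℕ) (B : Set (ℕ → Bool)) (u z : ℕ → Bool) : Prop :=
  (∃ y ∈ B, ∀ k, Out (sel β u z k) k (y k)) ∨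
    ∃ k, k % 2 ≠ β ∧ (∀ b, ¬ Out (sel β u z k) k b) ∧ ∀ j < k, ∃ b, Out (sel β u z j) j b

theorem exists_least_out {D : ℕ → ℕ → Bool} (h : ¬ ∀ k, ∃ b, Out (D k) k b) :
    ∃ k, (∀ b, ¬ Out (D k) k b) ∧ ∀ j < k, ∃ b, Out (D j) j b := by
  classical
  have h1 : ∃ k, ¬ ∃ b, Out (D k) k b := by
    by_contra h2
    exact h fun k => by
      by_contra h3
      exact h2 ⟨k, h3⟩
  refine ⟨Nat.find h1, fun b hb => Nat.find_spec h1 ⟨b, hb⟩, fun j hj => ?_⟩
  by_contra h3
  exact Nat.find_min h1 hj h3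

end Pool.Agent.Y588.PD
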