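import Pool.Agent.Y588.PD.Fn

set_option autoImplicit false

namespace Pool.Agent.Y588.PD

open Pool.Agent.Helper227 Pool.Agent.H685R3

/-- `σ` is an initial segment of `x`. -/
def Ini (σ : List Bool) (x : ℕ → Bool) : Prop := ∀ i < σ.length, x i = σ.getD i false

theorem Ini.pre_eq {σ : List Bool} {x : ℕ → Bool} (h : Ini σ x) : pre x σ.length = σ := by
  refine List.ext_getElem (by simp) fun i h1 h2 => ?_
  rw [getElem_pre, h i h2]
  exact List.getD_eq_getElem _ _ h2

theorem ini_pre (x : ℕ → Bool) (n : ℕ) : Ini (pre x n) x := by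
  intro i hi
  rw [length_pre] at hi
  rw [pre_getD _ _ _ _ hi]

theorem Ini.of_prefix {σ τ : List Bool} {x : ℕ → Bool} (h : σ <+: τ) (h' : Ini τ x) :
    Ini σ x := by
  intro i hi
  rw [h' i (lt_of_lt_of_le hi h.length_le), getD_of_prefix h hi]

theorem Ini.prefix_pre {σ : List Bool} {x : ℕ → Bool} (h : Ini σ x) {n : ℕ}
    (hn : σ.length ≤ n) : σ <+: pre x n := by
  rw [← h.pre_eq]
  exact pre_prefix x hn

/-- No member of the second cone computes a member of the first one by the functional `e`. -/
def Sepa (E : ℕ → List Bool → ℕ → Bool → Prop) (e : ℕ) (σ ρ : List Bool) : Prop :=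
  ∀ x y : ℕ → Bool, Ini σ x → Ini ρ y → ¬ ∀ n, ∃ k, E e (pre y k) n (x n)

theorem Sepa.mono {E : ℕ → List Bool → ℕ → Bool → Prop} {e : ℕ} {σ ρ σ' ρ' : List Bool}
    (h : Sepa E e σ ρ) (h1 : σ <+: σ') (h2 : ρ <+: ρ') : Sepa E e σ' ρ' :=
  fun x y hx hy => h x y (hx.of_prefix h1) (hy.of_prefix h2)

theorem exists_sepa {E : ℕ → List Bool → ℕ → Bool → Prop} (hE : Fam E) (e : ℕ)
    (σ ρ : List Bool) : ∃ σ' ρ', σ <+: σ' ∧ ρ <+: ρ' ∧ Sepa E e σ' ρ' := by
  by_cases h : ∃ ρ' n c, ρ <+: ρ' ∧ σ.length ≤ n ∧ E e ρ' n c
  · obtain ⟨ρ', n, c, h1, h2, h3⟩ := h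
    refine ⟨σ ++ List.replicate (n + 1 - σ.length) (!c), ρ', List.prefix_append _ _, h1,
      fun x y hx hy hn => ?_⟩
    have h4 : x n = !c := by
      rw [hx n (by simp; omega), List.getD_append_right _ _ _ _ h2,
        List.getD_replicate _ (by omega)]
    obtain ⟨k, hk⟩ := hn n
    have h5 := hE.mono e _ (pre y (max k ρ'.length)) _ _ (pre_prefix y (le_max_left _ _)) hk
    have h6 := hE.mono e _ (pre y (max k ρ'.length)) _ _ (hy.prefix_pre (le_max_right _ _)) h3
    have h7 := hE.single e _ _ _ _ h5 h6
    rw [h4] at h7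
    cases c <;> cases h7
  · refine ⟨σ, ρ, List.prefix_rfl, List.prefix_rfl, fun x y _ hy hn => h ?_⟩
    obtain ⟨k, hk⟩ := hn σ.length
    exact ⟨pre y (max k ρ.length), σ.length, x σ.length, hy.prefix_pre (le_max_right _ _), le_rfl,
      hE.mono e _ _ _ _ (pre_prefix y (le_max_left _ _)) hk⟩

theorem exists_sepa_list {E : ℕ → List Bool → ℕ → Bool → Prop} (hE : Fam E)
    (J : List (List Bool × List Bool × ℕ)) (T : List Bool → List Bool) :
    ∃ T' : List Bool → List Bool, (∀ s, T s <+: T' s) ∧
      ∀ q ∈ J, q.1 ≠ q.2.1 → Sepa E q.2.2 (T' q.1) (T' q.2.1) := by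
  induction J with
  | nil => exact ⟨T, fun s => List.prefix_rfl, fun q hq => by simp at hq⟩
  | cons q J ih =>
    obtain ⟨T', h1, h2⟩ := ih
    by_cases hq : q.1 = q.2.1
    · refine ⟨T', h1, fun r hr hne => ?_⟩
      rcases List.mem_cons.1 hr with rfl | hr
      · exact absurd hq hne
      · exact h2 r hr hne
    · obtain ⟨σ, ρ, h3, h4, h5⟩ := exists_sepa hE q.2.2 (T' q.1) (T' q.2.1)
      have h6 : ∀ s, T' s <+: Function.update (Function.update T' q.1 σ) q.2.1 ρ s := by
        intro s
        by_cases h7 : s = q.2.1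
        · rw [h7, Function.update_self]
          exact h4
        · rw [Function.update_of_ne h7]
          by_cases h8 : s = q.1
          · rw [h8, Function.update_self]
            exact h3
          · rw [Function.update_of_ne h8]
      refine ⟨_, fun s => (h1 s).trans (h6 s), fun r hr hne => ?_⟩
      rcases List.mem_cons.1 hr with rfl | hr
      · rw [Function.update_self, Function.update_of_ne hq, Function.update_self]
        exact h5
      · exact (h2 r hr hne).mono (h6 _) (h6 _)

/-- The tree `τ` consists of strings which are pairwise separated. -/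
structure Tree (E : ℕ → List Bool → ℕ → Bool → Prop) (τ : List Bool → List Bool) : Prop where
  ext : ∀ s b, τ s ++ [b] <+: τ (s ++ [b])
  sep : ∀ e s s', s.length = s'.length → s ≠ s' → e < s.length → Sepa E e (τ s) (τ s')

theorem exists_tree {E : ℕ → List Bool → ℕ → Bool → Prop} (hE : Fam E) : ∃ τ, Tree E τ := by
  have step : ∀ (n : ℕ) (T : List Bool → List Bool), ∃ T' : List Bool → List Bool,
      (∀ s b, T s ++ [b] <+: T' (s ++ [b])) ∧
      ∀ e s s', s.length = n + 1 → s'.length = n + 1 → s ≠ s' → e < n + 1 →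
        Sepa E e (T' s) (T' s') := by
    intro n T
    have hfin : ({s : List Bool | s.length = n + 1} ×ˢ ({s : List Bool | s.length = n + 1} ×ˢ
        {e : ℕ | e < n + 1})).Finite :=
      (List.finite_length_eq Bool (n + 1)).prod
        ((List.finite_length_eq Bool (n + 1)).prod (Set.finite_lt_nat (n + 1)))
    obtain ⟨T', h1, h2⟩ := exists_sepa_list hE hfin.toFinset.toList
      fun s => T s.dropLast ++ [s.getLastD false]
    refine ⟨T', fun s b => ?_, fun e s s' hs hs' hne he => ?_⟩
    · have := h1 (s ++ [b])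
      simpa using this
    · refine h2 (s, s', e) ?_ hne
      rw [Finset.mem_toList, Set.Finite.mem_toFinset]
      exact ⟨hs, hs', he⟩
  choose F hF1 hF2 using step
  let T : ℕ → List Bool → List Bool := fun n => Nat.rec (fun _ => []) (fun n T => F n T) n
  have hT : ∀ n, T (n + 1) = F n (T n) := fun n => rfl
  refine ⟨fun s => T s.length s, fun s b => ?_, fun e s s' hl hne he => ?_⟩
  · simp only [List.length_append, List.length_singleton, hT]
    exact hF1 _ _ _ _
  · obtain ⟨n, hn⟩ : ∃ n, s.length = n + 1 := ⟨s.length - 1, by omega⟩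
    rw [← hl, hn, hT]
    exact hF2 n _ e s s' hn (by omega) hne (by omega)

variable {E : ℕ → List Bool → ℕ → Bool → Prop} {τ : List Bool → List Bool}

theorem Tree.len (h : Tree E τ) (s : List Bool) : s.length ≤ (τ s).length := by
  induction s using List.reverseRecOn with
  | nil => simp
  | append_singleton s b ih =>
    have := (h.ext s b).length_le
    simp only [List.length_append, List.length_singleton] at this ⊢
    omega

theorem Tree.mono (h : Tree E τ) {s s' : List Bool} (hs : s <+: s') : τ s <+: τ s' := by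
  obtain ⟨r, rfl⟩ := hs
  induction r using List.reverseRecOn with
  | nil => simp
  | append_singleton r b ih =>
    rw [← List.append_assoc]
    exact ih.trans ((List.prefix_append _ _).trans (h.ext _ _))

theorem Tree.comp (h : Tree E τ) {s s' ξ : List Bool} (hs : τ s <+: ξ) (hs' : τ s' <+: ξ) :
    s <+: s' ∨ s' <+: s := by
  induction s using List.reverseRecOn with
  | nil => exact Or.inl (List.nil_prefix)
  | append_singleton r b ih =>
    rcases ih ((h.mono (List.prefix_append _ _)).trans hs) with h1 | h1
    · obtain ⟨t, rfl⟩ := h1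
      cases t with
      | nil => right; simp
      | cons b' t =>
        left
        have h2 : τ r ++ [b'] <+: ξ := by
          refine (h.ext r b').trans ((h.mono ?_).trans hs')
          exact ⟨t, by simp⟩
        have h3 : τ r ++ [b] <+: ξ := (h.ext r b).trans hs
        have h4 : (τ r ++ [b']) = τ r ++ [b] := by
          have := List.prefix_of_prefix_length_le h2 h3 (by simp)
          exact this.eq_of_length (by simp)
        have h5 : b' = b := by simpa using h4
        rw [h5]
        exact ⟨t, by simp⟩
    · exact Or.inr (h1.trans (List.prefix_append _ _))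

/-- The branch of the tree along `u`. -/
def kap (τ : List Bool → List Bool) (u : ℕ → Bool) (n : ℕ) : Bool :=
  (τ (pre u (n + 1))).getD n false

theorem Tree.ini_kap (h : Tree E τ) (u : ℕ → Bool) (n : ℕ) : Ini (τ (pre u n)) (kap τ u) := by
  intro i hi
  have h1 : i < (τ (pre u (i + 1))).length := by
    have := h.len (pre u (i + 1))
    rw [length_pre] at this
    omega
  rcases le_total n (i + 1) with h2 | h2
  · exact getD_of_prefix (h.mono (pre_prefix u h2)) hi
  · exact (getD_of_prefix (h.mono (pre_prefix u h2)) h1).symm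

theorem Tree.inj (h : Tree E τ) {u v : ℕ → Bool} (hle : RLe E (kap τ u) (kap τ v)) : u = v := by
  by_contra hne
  obtain ⟨i, hi⟩ := Function.ne_iff.1 hne
  obtain ⟨e, he⟩ := hle
  have h1 : pre u (i + 1 + (e + 1)) ≠ pre v (i + 1 + (e + 1)) := by
    intro h2
    have h3 := pre_getD u (i + 1 + (e + 1)) i false (by omega)
    rw [h2, pre_getD _ _ _ _ (by omega)] at h3
    exact hi h3.symm
  exact h.sep e _ _ (by simp) h1 (by simp; omega) _ _ (h.ini_kap u _) (h.ini_kap v _) he

/-- The branch depends only on the bits passed. -/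
theorem kap_congr (τ : List Bool → List Bool) {u v : ℕ → Bool} {n : ℕ}
    (h : ∀ i < n + 1, u i = v i) : kap τ u n = kap τ v n := by
  have : pre u (n + 1) = pre v (n + 1) := by
    refine List.map_congr_left fun i hi => ?_
    rw [List.mem_range] at hi
    exact h i hi
  rw [kap, kap, this]

theorem continuous_kap (τ : List Bool → List Bool) : Continuous (kap τ) := by
  refine continuous_pi fun n => ?_
  have h1 : (fun u : ℕ → Bool => kap τ u n) =
      (fun w : Fin (n + 1) → Bool => (τ (List.ofFn w)).getD n false) ∘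
        fun u : ℕ → Bool => fun i : Fin (n + 1) => u i := by
    funext u
    simp only [Function.comp_apply, kap]
    congr 2
    refine List.ext_getElem (by simp) fun i h2 h3 => ?_
    rw [getElem_pre, List.getElem_ofFn]
  rw [h1]
  exact (continuous_of_discreteTopology).comp (by fun_prop)

end Pool.Agent.Y588.PD
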